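import Mathlib

/-!
# Truncated hypergeometric polynomials: definitions

`PZ n = ∑_{k ≤ n} binom(2k,k)^2 X^k` over the integers, and the hypergeometric operator `LL`.
-/

namespace Pool.Agent.IR53

open Polynomial

/-- `P_n` with integer coefficients. -/
noncomputable def PZ (n : ℕ) : ℤ[X] :=
  ∑ k ∈ Finset.range (n + 1), C ((Nat.centralBinom k : ℤ) ^ 2) * X ^ k

/-- The operator `x (1 - 16 x) F'' + (1 - 32 x) F' - 4 F`. -/
noncomputable def LL {R : Type*} [CommRing R] (F : R[X]) : R[X] :=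
  X * (1 - 16 * X) * derivative (derivative F) + (1 - 32 * X) * derivative F - 4 * F

/-- the reduction of an integer polynomial modulo `p` -/
noncomputable abbrev red (p : ℕ) (F : ℤ[X]) : (ZMod p)[X] := F.map (Int.castRingHom (ZMod p))

/-- weights for Newton polygons: every nonzero coefficient has `m ≤ A v + B j` -/
def WLe (p A B m : ℕ) (F : ℤ[X]) : Prop :=
  ∀ j, F.coeff j ≠ 0 → m ≤ A * padicValInt p (F.coeff j) + B * j

/-- `i` is the smallest index where the weight takes its minimum `m` -/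
def LowV (p A B m : ℕ) (F : ℤ[X]) (i : ℕ) : Prop :=
  WLe p A B m F ∧ F.coeff i ≠ 0 ∧ A * padicValInt p (F.coeff i) + B * i = m ∧
    ∀ j < i, F.coeff j ≠ 0 → m < A * padicValInt p (F.coeff j) + B * j

/-- `i` is the largest index where the weight takes its minimum `m` -/
def HighV (p A B m : ℕ) (F : ℤ[X]) (i : ℕ) : Prop :=
  WLe p A B m F ∧ F.coeff i ≠ 0 ∧ A * padicValInt p (F.coeff i) + B * i = m ∧
    ∀ j, i < j → F.coeff j ≠ 0 → m < A * padicValInt p (F.coeff j) + B * j

/-- the good primes for `n`: `p = 3 mod 4` prime, `n < p^2`, `p (p+1) ≤ 2 n` -/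
noncomputable def GP (n : ℕ) : Finset ℕ :=
  (Finset.range (2 * n + 1)).filter
    (fun p => p.Prime ∧ p % 4 = 3 ∧ 7 ≤ p ∧ n < p ^ 2 ∧ p * (p + 1) ≤ 2 * n)

/-- good primes with `p + 1 ∣ e` -/
noncomputable def SA (n e : ℕ) : Finset ℕ := (GP n).filter (fun p => (p + 1) ∣ e)

/-- good primes of the second type: `n mod p > (p-1)/2` and `e mod (p+1) = n mod p - (p-1)/2` -/
noncomputable def SC (n e : ℕ) : Finset ℕ :=
  (GP n).filter (fun p => p < 2 * (n % p) ∧ 2 * (e % (p + 1)) + p = 2 * (n % p) + 1)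

end Pool.Agent.IR53
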