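import Mathlib
import Pool.Agent.LibIR53.Defs

/-!
# Row R01

Coefficients of `PZ n` (`finset_sum_coeff`, `coeff_C_mul_X_pow`) and Lucas for central binomials.
`Nat.centralBinom k = (2*k).choose k`; Mathlib: `Choose.choose_modEq_choose_mod_mul_choose_div_nat` (Lucas).
If `k % p ≤ h` then `(2*k) % p = 2*(k % p)` and `(2*k)/p = 2*(k/p)`.  If `h < k % p` then `(2*k) % p = 2*(k%p) - p < k % p`,
so the binomial of the digits is `0`.  If `k % p ≤ h < k/p` (and `k/p < p`) then `p ∣ centralBinom (k/p)`: `j = k/p` satisfies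
`j < p ≤ 2*j` (`Nat.Prime.dvd_choose` or again the last digit argument).  `cb_not_dvd`: `2k ≤ 2h < p`, `Nat.Prime.dvd_factorial`/`Nat.factorization_choose`.
-/

namespace Pool.Agent.IR53

open Polynomial

theorem PZ_coeff (n k : ℕ) :
    (PZ n).coeff k = if k ≤ n then (Nat.centralBinom k : ℤ) ^ 2 else 0 := by
  unfold PZ
  rw [finsetSum_coeff]
  simp only [coeff_C_mul_X_pow]
  rw [Finset.sum_ite_eq]
  simp only [Finset.mem_range, Nat.lt_succ_iff]

theorem PZ_natDegree (n : ℕ) : (PZ n).natDegree = n := by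
  apply le_antisymm
  · rw [natDegree_le_iff_coeff_eq_zero]
    intro k hk
    rw [PZ_coeff, if_neg (by omega)]
  · apply le_natDegree_of_ne_zero
    rw [PZ_coeff, if_pos le_rfl]
    exact pow_ne_zero 2 (by exact_mod_cast Nat.centralBinom_ne_zero n)

theorem PZ_coeff_zero (n : ℕ) : (PZ n).coeff 0 = 1 := by
  rw [PZ_coeff, if_pos (Nat.zero_le n), Nat.centralBinom_zero]
  norm_num

private theorem r01_dvd {p h : ℕ} (hp : p.Prime) (hph : p = 2 * h + 1) {k : ℕ}
    (h0 : h < k % p) : p ∣ Nat.centralBinom k := by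
  have := Fact.mk hp
  have hlt : k % p < p := Nat.mod_lt _ hp.pos
  have h1 : 2 * k % p = 2 * (k % p) - p := by
    have e1 : 2 * k = (2 * (k % p) - p) + p * (2 * (k / p) + 1) := by
      have e2 := Nat.mod_add_div k p
      have e3 : p * (2 * (k / p) + 1) = 2 * (p * (k / p)) + p := by ring
      rw [e3]
      omega
    rw [e1, Nat.add_mul_mod_self_left]
    exact Nat.mod_eq_of_lt (by omega)
  have h2 := Choose.choose_modEq_choose_mod_mul_choose_div_nat (n := 2 * k) (k := k) (p := p)
  rw [h1, Nat.choose_eq_zero_of_lt (by omega : 2 * (k % p) - p < k % p), zero_mul] at h2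
  exact (Nat.modEq_zero_iff_dvd).1 h2

theorem cb_lucas {p h : ℕ} (hp : p.Prime) (hph : p = 2 * h + 1) {k : ℕ} (h0 : k % p ≤ h) :
    Nat.centralBinom k ≡ Nat.centralBinom (k / p) * Nat.centralBinom (k % p) [MOD p] := by
  have := Fact.mk hp
  have e1 : 2 * k = 2 * (k % p) + p * (2 * (k / p)) := by
    have e2 := Nat.mod_add_div k p
    have e3 : p * (2 * (k / p)) = 2 * (p * (k / p)) := by ring
    rw [e3]
    omega
  have h1 : 2 * k % p = 2 * (k % p) := by
    rw [e1, Nat.add_mul_mod_self_left]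
    exact Nat.mod_eq_of_lt (by omega)
  have h3 : 2 * k / p = 2 * (k / p) := by
    rw [e1, Nat.add_mul_div_left _ _ hp.pos, Nat.div_eq_of_lt (by omega), zero_add]
  have h2 := Choose.choose_modEq_choose_mod_mul_choose_div_nat (n := 2 * k) (k := k) (p := p)
  rw [h1, h3, mul_comm ((2 * (k % p)).choose (k % p))] at h2
  exact h2

theorem cb_dvd {p h : ℕ} (hp : p.Prime) (hph : p = 2 * h + 1) {k : ℕ} (hk : k < p ^ 2)
    (h0 : h < k % p ∨ h < k / p) : p ∣ Nat.centralBinom k := by
  rcases lt_or_ge h (k % p) with h1 | h1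
  · exact r01_dvd hp hph h1
  · have h2 : h < k / p := h0.resolve_left (not_lt.2 h1)
    have h3 : k / p < p := by
      rw [Nat.div_lt_iff_lt_mul hp.pos, ← sq]
      exact hk
    have h4 : p ∣ Nat.centralBinom (k / p) :=
      r01_dvd hp hph (by rw [Nat.mod_eq_of_lt h3]; exact h2)
    have h5 := cb_lucas hp hph h1
    rw [← Nat.modEq_zero_iff_dvd]
    exact h5.trans ((Nat.modEq_zero_iff_dvd).2 (h4.mul_right _))

theorem cb_not_dvd {p h : ℕ} (hp : p.Prime) (hph : p = 2 * h + 1) {k : ℕ} (hk : k ≤ h) :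
    ¬ p ∣ Nat.centralBinom k := by
  intro hd
  have h1 : Nat.centralBinom k * k.factorial * (2 * k - k).factorial = (2 * k).factorial :=
    Nat.choose_mul_factorial_mul_factorial (by omega)
  have h2 : p ∣ (2 * k).factorial := by
    rw [← h1]
    exact (hd.mul_right _).mul_right _
  have h3 := (hp.dvd_factorial).1 h2
  omega

end Pool.Agent.IR53
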