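import Mathlib
import Pool.Agent.LibIR53.Defs
import Pool.Agent.LibIR53.R01

/-!
# Row R03

Compare coefficients: `red p (PZ h) ^ (p+1) = red p (PZ h) * (expand (ZMod p) p (red p (PZ h)))` (`ZMod.expand_card`), and the
coefficient of `X^k` of `H * expand p H` for `deg H ≤ h < p` is `H_{k % p} * H_{k / p}` (only one term: `k - j` divisible by `p`, `j ≤ h < p`).
By `cb_lucas`, `cb_dvd` this is `(centralBinom k)^2` in `ZMod p` for every `k < p^2` (both sides `0` if a digit is `> h`), in particular for
`k ≤ n`; for `k > n` the right side is zero because `k > n ≥ p*(h+1)` forces `k/p > h`.  `natDegree_red_PZ`: leading coefficient by `cb_not_dvd`.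
-/

namespace Pool.Agent.IR53

open Polynomial

private theorem r03_coeff (p n k : ℕ) :
    (red p (PZ n)).coeff k = if k ≤ n then ((Nat.centralBinom k : ℕ) : ZMod p) ^ 2 else 0 := by
  rw [red, coeff_map, PZ_coeff]
  split_ifs
  · simp
  · simp

private theorem r03_mul {p h : ℕ} (hp : p.Prime) (hph : p = 2 * h + 1)
    (H : (ZMod p)[X]) (hH : ∀ j, h < j → H.coeff j = 0) (k : ℕ) :
    (H * expand (ZMod p) p H).coeff k = H.coeff (k % p) * H.coeff (k / p) := by
  have hp0 : 0 < p := hp.pos
  rw [coeff_mul, Finset.sum_eq_single (k % p, p * (k / p))]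
  · simp only
    rw [coeff_expand hp0, if_pos (dvd_mul_right p _), Nat.mul_div_cancel_left _ hp0]
  · rintro ⟨i, j⟩ hij hne
    simp only
    have hsum : i + j = k := Finset.HasAntidiagonal.mem_antidiagonal.1 hij
    rcases lt_or_ge h i with hi | hi
    · rw [hH i hi, zero_mul]
    · rw [coeff_expand hp0]
      split_ifs with hd
      · exfalso
        obtain ⟨t, rfl⟩ := hd
        have h1 : i < p := by omega
        have h2 : k % p = i := by
          rw [← hsum, Nat.add_mul_mod_self_left, Nat.mod_eq_of_lt h1]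
        have h3 : k / p = t := by
          rw [← hsum, Nat.add_mul_div_left _ _ hp0, Nat.div_eq_of_lt h1, zero_add]
        exact hne (by rw [h2, h3])
      · rw [mul_zero]
  · intro hne
    exact absurd (Finset.HasAntidiagonal.mem_antidiagonal.2 (Nat.mod_add_div k p)) hne

theorem PZ_red {p h n : ℕ} [Fact p.Prime] (hph : p = 2 * h + 1) (hn : n < p ^ 2)
    (hh : h < n / p) : red p (PZ n) = (red p (PZ h)) ^ (p + 1) := by
  have hp : p.Prime := Fact.out
  have hp0 : 0 < p := hp.pos
  rw [pow_succ', ← ZMod.expand_card]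
  ext k
  rw [r03_mul hp hph _ (fun j hj => by rw [r03_coeff, if_neg (by omega)]), r03_coeff, r03_coeff,
    r03_coeff]
  rcases le_or_gt k n with hk | hk
  · rw [if_pos hk]
    have hk2 : k < p ^ 2 := lt_of_le_of_lt hk hn
    by_cases h1 : k % p ≤ h
    · by_cases h2 : k / p ≤ h
      · rw [if_pos h1, if_pos h2]
        have h3 := (ZMod.natCast_eq_natCast_iff _ _ _).2 (cb_lucas hp hph h1)
        rw [h3]
        push_cast
        ring
      · rw [if_neg h2, mul_zero]
        have h3 := (ZMod.natCast_eq_zero_iff _ _).2 (cb_dvd hp hph hk2 (Or.inr (not_le.1 h2)))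
        rw [h3]
        ring
    · rw [if_neg h1, zero_mul]
      have h3 := (ZMod.natCast_eq_zero_iff _ _).2 (cb_dvd hp hph hk2 (Or.inl (not_le.1 h1)))
      rw [h3]
      ring
  · rw [if_neg (not_le.2 hk)]
    have h1 : n / p ≤ k / p := Nat.div_le_div_right hk.le
    rw [if_neg (show ¬ k / p ≤ h by omega), mul_zero]

theorem natDegree_red_PZ {p h : ℕ} [Fact p.Prime] (hph : p = 2 * h + 1) :
    (red p (PZ h)).natDegree = h := by
  have hp : p.Prime := Fact.out
  refine natDegree_eq_of_le_of_coeff_ne_zero ?_ ?_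
  · refine natDegree_le_iff_coeff_eq_zero.2 fun j hj => ?_
    rw [r03_coeff, if_neg (by omega)]
  · rw [r03_coeff, if_pos le_rfl]
    refine pow_ne_zero _ fun h1 => ?_
    exact cb_not_dvd hp hph le_rfl ((ZMod.natCast_eq_zero_iff _ _).1 h1)

end Pool.Agent.IR53
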