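import Mathlib
import Pool.Agent.LibIR53.Defs

/-!
# Row R05

`taylor α` is a ring homomorphism with `taylor α X = X + C α`, it commutes with `derivative` (prove it: `taylor_apply`, `derivative_comp`).
So `taylor α (LL F) = (X + α)(1 - 16(X+α)) G'' + (1 - 32 (X+α)) G' - 4 G` with `G = taylor α F`;
expand `= A G'' + (1-32α) X G'' - 16 X^2 G'' + (1-32α) G' - 32 X G' - 4G`, `A = α(1-16α)`, and read the coefficient of `X^j`
(`coeff_derivative`, `coeff_X_mul`, cases `j = 0, 1, j+2` for the terms with `X`, `X^2`).
-/

namespace Pool.Agent.IR53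

open Polynomial

private theorem r05_der {K : Type*} [Field K] (α : K) (P : K[X]) :
    taylor α (derivative P) = derivative (taylor α P) := by
  rw [taylor_apply, taylor_apply, derivative_comp]
  simp

private theorem r05_LL {K : Type*} [Field K] (F : K[X]) (α : K) :
    taylor α (LL F) = C (α * (1 - 16 * α)) * derivative (derivative (taylor α F)) +
      C (1 - 32 * α) * (X * derivative (derivative (taylor α F))) -
      C 16 * (X * (X * derivative (derivative (taylor α F)))) +
      C (1 - 32 * α) * derivative (taylor α F) - C 32 * (X * derivative (taylor α F)) -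
      C 4 * taylor α F := by
  have e16 : (16 : K[X]) = C 16 := (map_ofNat C 16).symm
  have e32 : (32 : K[X]) = C 32 := (map_ofNat C 32).symm
  have e4 : (4 : K[X]) = C 4 := (map_ofNat C 4).symm
  unfold LL
  rw [e16, e32, e4]
  simp only [map_sub, map_add, taylor_mul, taylor_X, taylor_C, taylor_one, r05_der, C_mul, C_1]
  have e : (C (32 : K) : K[X]) = 2 * C 16 := by
    rw [← e32, ← e16]
    norm_num
  rw [e]
  ring

theorem taylor_LL_coeff {K : Type*} [Field K] (F : K[X]) (α : K) (j : ℕ) :
    (taylor α (LL F)).coeff j =
      α * (1 - 16 * α) * (((j : K) + 2) * (j + 1)) * (taylor α F).coeff (j + 2) +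
        (1 - 32 * α) * ((j : K) + 1) ^ 2 * (taylor α F).coeff (j + 1) -
        4 * (2 * (j : K) + 1) ^ 2 * (taylor α F).coeff j := by
  rw [r05_LL]
  set G := taylor α F with hG
  simp only [coeff_sub, coeff_add, coeff_C_mul]
  have h2 : ∀ i, (derivative (derivative G)).coeff i =
      G.coeff (i + 2) * ((i : K) + 2) * ((i : K) + 1) := by
    intro i
    rw [coeff_derivative, coeff_derivative]
    push_cast
    ring
  rcases j with _ | _ | j
  · simp only [coeff_X_mul_zero, h2, coeff_derivative]
    push_cast
    ring
  · rw [coeff_X_mul, coeff_X_mul, coeff_X_mul, coeff_X_mul_zero, h2, h2, coeff_derivative,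
      coeff_derivative]
    push_cast
    ring
  · rw [coeff_X_mul, coeff_X_mul, coeff_X_mul, coeff_X_mul, h2, h2, h2, coeff_derivative,
      coeff_derivative]
    push_cast
    ring

end Pool.Agent.IR53
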