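import Mathlib
import Pool.Agent.LibIR53.Defs
import Pool.Agent.LibIR53.R05

/-!
# Row R06

Put `c j = (taylor α H).coeff j`, `d j = (taylor α V).coeff j`; `c 0 = H.eval α = 0` (`taylor_coeff_zero`), `d 0 = 0`, `taylor_coeff_one`.
Recurrence (R05) with LL H = 0: `A (j+2)(j+1) c(j+2) + B (j+1)^2 c(j+1) = 4(2j+1)^2 c j`, `B^2 = 1 - 64 A`.
simple_root: if `A = 0` then `B ≠ 0` and `c j = 0` for all `j < p` by induction (`(j+1 : K) ≠ 0` for `j+1 < p`), so `taylor α H = 0`
(natDegree < p), `H = 0`.  If `A ≠ 0` and `c 1 = 0` then again `c j = 0` for all `j ≤ p-1` by induction (uses `(j+2)(j+1) ≠ 0` for `j+2 ≤ p-1`).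
key_char_p: with `lam = d 1 / c 1`, `d j = lam * c j` for all `j ≤ p-1` (strong induction; for `j+2 ≤ p-1` use `hL` at `j`).
At `j = p-1` the recurrence formula has coefficients `(p+1) p = 0` and `p^2 = 0` in K, so `(taylor (LL V)).coeff (p-1) = -4(2(p-1)+1)^2 d(p-1)`
`= lam * (-4 (2(p-1)+1)^2 c(p-1))`, and `c (p-1) = 0` because `natDegree H < p-1`.
-/

namespace Pool.Agent.IR53

open Polynomial

theorem r06_cast {K : Type*} [Field K] {p : ℕ} [Fact p.Prime] [CharP K p] {m : ℕ} (h0 : 0 < m)
    (h1 : m < p) : (m : K) ≠ 0 := by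
  intro h
  rw [CharP.cast_eq_zero_iff K p m] at h
  exact absurd (Nat.le_of_dvd h0 h) (by omega)

theorem r06_rec {K : Type*} [Field K] {F : K[X]} {α : K} {j : ℕ}
    (h : (taylor α (LL F)).coeff j = 0) :
    α * (1 - 16 * α) * (((j : K) + 2) * (j + 1)) * (taylor α F).coeff (j + 2) =
      4 * (2 * (j : K) + 1) ^ 2 * (taylor α F).coeff j -
        (1 - 32 * α) * ((j : K) + 1) ^ 2 * (taylor α F).coeff (j + 1) := by
  rw [taylor_LL_coeff] at h
  linear_combination h

theorem r06_zero {K : Type*} [Field K] {p : ℕ} {H : K[X]} {α : K} (hdeg : H.natDegree < p - 1)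
    (h : ∀ j < p, (taylor α H).coeff j = 0) : H = 0 := by
  have h1 : taylor α H = 0 := by
    ext j
    rw [coeff_zero]
    by_cases hj : j < p
    · exact h j hj
    · apply coeff_eq_zero_of_natDegree_lt
      rw [natDegree_taylor]
      omega
  exact (taylor_injective α) (by rw [h1, map_zero])

theorem simple_root {K : Type*} [Field K] {p : ℕ} [Fact p.Prime] [CharP K p] (hp : 5 ≤ p)
    {H : K[X]} {α : K} (hH : LL H = 0) (hH0 : H ≠ 0) (hdeg : H.natDegree < p - 1)
    (hα : H.eval α = 0) : α * (1 - 16 * α) ≠ 0 ∧ (derivative H).eval α ≠ 0 := by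
  have hp0 := (Fact.out : p.Prime).pos
  have hc0 : (taylor α H).coeff 0 = 0 := by rw [taylor_coeff_zero, hα]
  have hL : ∀ j, (taylor α (LL H)).coeff j = 0 := by
    intro j
    rw [hH, map_zero, coeff_zero]
  have hA : α * (1 - 16 * α) ≠ 0 := by
    intro hA
    apply hH0
    apply r06_zero (p := p) hdeg
    have hB : (1 - 32 * α) ≠ 0 := by
      intro hB
      have h1 : (1 - 32 * α) ^ 2 = 1 - 64 * (α * (1 - 16 * α)) := by ring
      rw [hA, hB] at h1
      norm_num at h1
    intro j
    induction j with
    | zero => exact fun _ => hc0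
    | succ j ih =>
      intro hj
      have h1 := r06_rec (hL j)
      rw [hA, ih (by omega), zero_mul, zero_mul, mul_zero, zero_sub, eq_comm, neg_eq_zero] at h1
      have h2 : ((j : K) + 1) ≠ 0 := by
        have := r06_cast (K := K) (p := p) (m := j + 1) (by omega) hj
        push_cast at this
        exact this
      rcases mul_eq_zero.1 h1 with h3 | h3
      · exact absurd h3 (mul_ne_zero hB (pow_ne_zero 2 h2))
      · exact h3
  refine ⟨hA, fun h1 => ?_⟩
  apply hH0
  apply r06_zero (p := p) hdeg
  have hc1 : (taylor α H).coeff 1 = 0 := by rw [taylor_coeff_one, h1]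
  intro j
  induction j using Nat.strong_induction_on with
  | _ j ih =>
    intro hj
    rcases j with _ | _ | j
    · exact hc0
    · exact hc1
    · have h2 := r06_rec (hL j)
      rw [ih j (by omega) (by omega), ih (j + 1) (by omega) (by omega), mul_zero, mul_zero,
        sub_zero] at h2
      have h3 : ((j : K) + 1) ≠ 0 := by
        have := r06_cast (K := K) (p := p) (m := j + 1) (by omega) (by omega)
        push_cast at this
        exact this
      have h4 : ((j : K) + 2) ≠ 0 := by
        have := r06_cast (K := K) (p := p) (m := j + 2) (by omega) (by omega)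
        push_cast at this
        exact this
      rcases mul_eq_zero.1 h2 with h5 | h5
      · exact absurd h5 (mul_ne_zero hA (mul_ne_zero h4 h3))
      · exact h5

theorem key_char_p {K : Type*} [Field K] {p : ℕ} [Fact p.Prime] [CharP K p] (hp : 5 ≤ p)
    {H V : K[X]} {α : K} (hH : LL H = 0) (hH0 : H ≠ 0) (hdeg : H.natDegree < p - 1)
    (hα : H.eval α = 0) (hV : V.eval α = 0)
    (hL : ∀ j < p - 1, (taylor α (LL V)).coeff j = 0) :
    (taylor α (LL V)).coeff (p - 1) = 0 := by
  obtain ⟨hA, h1⟩ := simple_root hp hH hH0 hdeg hα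
  have hc0 : (taylor α H).coeff 0 = 0 := by rw [taylor_coeff_zero, hα]
  have hd0 : (taylor α V).coeff 0 = 0 := by rw [taylor_coeff_zero, hV]
  have hc1 : (taylor α H).coeff 1 ≠ 0 := by
    rw [taylor_coeff_one]
    exact h1
  have hLH : ∀ j, (taylor α (LL H)).coeff j = 0 := by
    intro j
    rw [hH, map_zero, coeff_zero]
  set lam := (taylor α V).coeff 1 / (taylor α H).coeff 1 with hlam
  have key : ∀ j, j ≤ p - 1 → (taylor α V).coeff j = lam * (taylor α H).coeff j := by
    intro j
    induction j using Nat.strong_induction_on with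
    | _ j ih =>
      intro hj
      rcases j with _ | _ | j
      · rw [hc0, hd0, mul_zero]
      · rw [hlam]
        field_simp
      · have h2 := r06_rec (hLH j)
        have h3 := r06_rec (hL j (by omega))
        rw [ih j (by omega) (by omega), ih (j + 1) (by omega) (by omega)] at h3
        have h4 : ((j : K) + 1) ≠ 0 := by
          have := r06_cast (K := K) (p := p) (m := j + 1) (by omega) (by omega)
          push_cast at this
          exact this
        have h5 : ((j : K) + 2) ≠ 0 := by
          have := r06_cast (K := K) (p := p) (m := j + 2) (by omega) (by omega)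
          push_cast at this
          exact this
        have h6 : α * (1 - 16 * α) * (((j : K) + 2) * (j + 1)) ≠ 0 :=
          mul_ne_zero hA (mul_ne_zero h5 h4)
        apply mul_left_cancel₀ h6
        rw [h3]
        linear_combination (-lam) * h2
  have hpK : ((p - 1 : ℕ) : K) + 1 = 0 := by
    have h2 : ((p - 1 : ℕ) : K) + 1 = ((p : ℕ) : K) := by
      have h3 : p - 1 + 1 = p := by omega
      rw [← Nat.cast_succ, Nat.succ_eq_add_one, h3]
    rw [h2, CharP.cast_eq_zero]
  have hlast : (taylor α H).coeff (p - 1) = 0 := by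
    apply coeff_eq_zero_of_natDegree_lt
    rw [natDegree_taylor]
    exact hdeg
  rw [taylor_LL_coeff, key (p - 1) le_rfl, hlast, hpK]
  ring

end Pool.Agent.IR53
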