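import Mathlib
import Pool.Agent.LibIR53.Defs
import Pool.Agent.LibIR53.R01

/-!
# Row R04

Coefficient comparison: the coefficient of `X^k` of `LL F` is `(k+1)^2 F_{k+1} - 4(2k+1)^2 F_k`
(`coeff_derivative`; first prove this as a lemma `LL_coeff` for all `F`), and `(k+1) * centralBinom (k+1) = 2*(2k+1) * centralBinom k`
(`Nat.succ_mul_centralBinom_succ`).  So only `k = n` survives.  `LL_red`: `LL` commutes with `map`, and `2h+1 = p`.
-/

namespace Pool.Agent.IR53

open Polynomial

theorem r04_LL_coeff {R : Type*} [CommRing R] (F : R[X]) (k : ℕ) :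
    (LL F).coeff k = ((k : R) + 1) ^ 2 * F.coeff (k + 1) -
      4 * (2 * (k : R) + 1) ^ 2 * F.coeff k := by
  have h1 : LL F = derivative (derivative F) * X - C 16 * (derivative (derivative F) * X ^ 2) +
      derivative F - C 32 * (derivative F * X) - C 4 * F := by
    unfold LL
    have e1 : (C (16 : R)) = (16 : R[X]) := map_ofNat C 16
    have e2 : (C (32 : R)) = (32 : R[X]) := map_ofNat C 32
    have e3 : (C (4 : R)) = (4 : R[X]) := map_ofNat C 4
    rw [e1, e2, e3]
    ring
  rw [h1]
  rcases k with _ | _ | k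
  · simp [coeff_derivative, coeff_X_mul_zero, mul_coeff_zero]
  · simp only [coeff_sub, coeff_add, coeff_C_mul, coeff_mul_X, coeff_derivative, Nat.cast_zero]
    have h2 : ((derivative (derivative F)) * X ^ 2).coeff (0 + 1) = 0 := by
      rw [coeff_mul_X_pow']
      simp
    rw [h2]
    push_cast
    ring
  · simp only [coeff_sub, coeff_add, coeff_C_mul, coeff_mul_X, coeff_derivative]
    have h2 : ((derivative (derivative F)) * X ^ 2).coeff (k + 1 + 1) =
        (derivative (derivative F)).coeff k := by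
      rw [coeff_mul_X_pow' _ 2 (k + 1 + 1), if_pos (by omega)]
      congr 1
    rw [h2, coeff_derivative, coeff_derivative]
    push_cast
    ring

theorem r04_PZ_coeff (n k : ℕ) :
    (PZ n).coeff k = if k ≤ n then ((Nat.centralBinom k : ℤ) ^ 2) else 0 := by
  unfold PZ
  rw [finset_sum_coeff]
  simp only [coeff_C_mul, coeff_X_pow, mul_ite, mul_one, mul_zero]
  rw [Finset.sum_ite_eq (Finset.range (n + 1)) k]
  simp [Nat.lt_succ_iff]

theorem r04_map {R S : Type*} [CommRing R] [CommRing S] (f : R →+* S) (F : R[X]) :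
    (LL F).map f = LL (F.map f) := by
  unfold LL
  simp only [Polynomial.map_sub, Polynomial.map_add, Polynomial.map_mul, Polynomial.map_X,
    Polynomial.map_one, Polynomial.map_ofNat, derivative_map]

theorem LL_PZ (n : ℕ) :
    LL (PZ n) = - (C (4 * (2 * (n : ℤ) + 1) ^ 2 * (Nat.centralBinom n : ℤ) ^ 2) * X ^ n) := by
  ext k
  rw [r04_LL_coeff, r04_PZ_coeff, r04_PZ_coeff, coeff_neg, coeff_C_mul, coeff_X_pow]
  have hb : ((k : ℤ) + 1) * (Nat.centralBinom (k + 1) : ℤ) =
      2 * (2 * (k : ℤ) + 1) * (Nat.centralBinom k : ℤ) := by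
    exact_mod_cast Nat.succ_mul_centralBinom_succ k
  rcases lt_trichotomy k n with h | h | h
  · rw [if_pos (by omega), if_pos h.le, if_neg (by omega)]
    have h2 : ((k : ℤ) + 1) ^ 2 * (Nat.centralBinom (k + 1) : ℤ) ^ 2 =
        (2 * (2 * (k : ℤ) + 1) * (Nat.centralBinom k : ℤ)) ^ 2 := by
      rw [← hb]
      ring
    rw [h2]
    ring
  · subst h
    rw [if_neg (by omega), if_pos le_rfl, if_pos rfl]
    ring
  · rw [if_neg (by omega), if_neg (by omega), if_neg (by omega)]
    ring

theorem LL_red {p h : ℕ} [Fact p.Prime] (hph : p = 2 * h + 1) : LL (red p (PZ h)) = 0 := by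
  unfold red
  rw [← r04_map, LL_PZ, Polynomial.map_neg, Polynomial.map_mul, Polynomial.map_C]
  have h1 : ((Int.castRingHom (ZMod p)) (4 * (2 * (h : ℤ) + 1) ^ 2 *
      (Nat.centralBinom h : ℤ) ^ 2)) = 0 := by
    have h2 : (2 * (h : ℤ) + 1) = (p : ℤ) := by
      rw [hph]
      push_cast
      ring
    rw [h2]
    simp
  rw [h1]
  simp

end Pool.Agent.IR53
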