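import Mathlib
import Pool.Agent.LibIR53.Defs
import Pool.Agent.LibIR53.R03
import Pool.Agent.LibIR53.R04

/-!
# Row R07

LL_pow: expand `derivative (H^(m+2))` (`derivative_pow`, `derivative_mul`) and `ring`.
LL_V: apply `LL` (additive, `LL (C p * V) = C p * LL V`) to `hV` over the integers.  LL (PZ n) is divisible by `p^2` (`LL_PZ`, `p ∣ centralBinom n`
from `cb_dvd`); `LL ((PZ h)^(p+1))` by `LL_pow` with `m + 2 = p + 1`, and `LL (PZ h) = -(C (4 p^2 ..) X^h)` (`LL_PZ`, `2h+1 = p`).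
So `C p * (LL V + 4 H^(p+1) + (p+1) X (1-16X) H^(p-1) H'^2) = C (p^2) * R`; cancel `C p`, then reduce mod `p` (`LL` and `derivative` commute
with `map`).
-/

namespace Pool.Agent.IR53

open Polynomial

theorem LL_pow {R : Type*} [CommRing R] (H : R[X]) (m : ℕ) :
    LL (H ^ (m + 2)) = ((m : R[X]) + 2) * H ^ (m + 1) * LL H + 4 * ((m : R[X]) + 1) * H ^ (m + 2) +
      ((m : R[X]) + 2) * ((m : R[X]) + 1) * X * (1 - 16 * X) * H ^ m * (derivative H) ^ 2 := by
  have h1 : derivative (H ^ (m + 2)) = ((m : R[X]) + 2) * H ^ (m + 1) * derivative H := by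
    rw [derivative_pow]
    simp only [Nat.add_succ_sub_one, map_natCast, Nat.cast_add, Nat.cast_ofNat, map_add, map_ofNat]
  have h2 : derivative (((m : R[X]) + 2) * H ^ (m + 1) * derivative H) =
      ((m : R[X]) + 2) * (((m : R[X]) + 1) * H ^ m * derivative H * derivative H +
        H ^ (m + 1) * derivative (derivative H)) := by
    have h3 : derivative (H ^ (m + 1)) = ((m : R[X]) + 1) * H ^ m * derivative H := by
      rw [derivative_pow]
      simp only [Nat.add_sub_cancel, map_natCast, Nat.cast_add, Nat.cast_one, map_add, map_one]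
    have h4 : derivative ((m : R[X]) + 2) = 0 := by
      simp
    rw [mul_assoc, derivative_mul, h4, derivative_mul, h3]
    ring
  unfold LL
  rw [h1, h2]
  ring

private theorem r07_LL_add {R : Type*} [CommRing R] (F G : R[X]) : LL (F + G) = LL F + LL G := by
  unfold LL
  simp only [derivative_add]
  ring

private theorem r07_LL_C_mul {R : Type*} [CommRing R] (c : R) (G : R[X]) :
    LL (C c * G) = C c * LL G := by
  unfold LL
  simp only [derivative_C_mul]
  ring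

private theorem r07_LL_map {R S : Type*} [CommRing R] [CommRing S] (f : R →+* S) (F : R[X]) :
    (LL F).map f = LL (F.map f) := by
  unfold LL
  simp [derivative_map, Polynomial.map_sub, Polynomial.map_add, Polynomial.map_mul]

theorem LL_V {p h n : ℕ} [Fact p.Prime] (hph : p = 2 * h + 1) (hn : n < p ^ 2)
    (hh : h < n / p) {V : ℤ[X]} (hV : PZ n = (PZ h) ^ (p + 1) + C (p : ℤ) * V) :
    LL (red p V) = - (4 * (red p (PZ h)) ^ (p + 1) +
      X * (1 - 16 * X) * (red p (PZ h)) ^ (p - 1) * (derivative (red p (PZ h))) ^ 2) := by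
  have hp : p.Prime := Fact.out
  have hp1 : 1 ≤ p := hp.one_lt.le
  have hpz : (p : ℤ) ≠ 0 := by exact_mod_cast hp.ne_zero
  obtain ⟨c, hc⟩ := cb_dvd hp hph hn (Or.inr hh)
  obtain ⟨m, hm⟩ : ∃ m, p = m + 1 := ⟨p - 1, by omega⟩
  set H := PZ h with hH
  have e1 : LL (PZ n) = C (p : ℤ) * (C (p : ℤ) *
      (- (C (4 * (2 * (n : ℤ) + 1) ^ 2 * (c : ℤ) ^ 2) * X ^ n))) := by
    rw [LL_PZ, hc]
    have : (4 * (2 * (n : ℤ) + 1) ^ 2 * ((p * c : ℕ) : ℤ) ^ 2) =
        (p : ℤ) * ((p : ℤ) * (4 * (2 * (n : ℤ) + 1) ^ 2 * (c : ℤ) ^ 2)) := by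
      push_cast; ring
    rw [this, C_mul (a := (p : ℤ)), C_mul (a := (p : ℤ))]
    ring
  have e2 : LL H = C (p : ℤ) * (C (p : ℤ) * (- (C (4 * (Nat.centralBinom h : ℤ) ^ 2) * X ^ h))) := by
    rw [hH, LL_PZ]
    have h3 : (2 * (h : ℤ) + 1) = (p : ℤ) := by rw [hph]; push_cast; ring
    rw [h3]
    have : (4 * (p : ℤ) ^ 2 * (Nat.centralBinom h : ℤ) ^ 2) =
        (p : ℤ) * ((p : ℤ) * (4 * (Nat.centralBinom h : ℤ) ^ 2)) := by ring
    rw [this, C_mul (a := (p : ℤ)), C_mul (a := (p : ℤ))]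
    ring
  have e3 : LL (H ^ (p + 1)) = ((m : ℤ[X]) + 2) * H ^ (m + 1) * LL H +
      4 * C (p : ℤ) * H ^ (p + 1) +
      ((m : ℤ[X]) + 2) * C (p : ℤ) * X * (1 - 16 * X) * H ^ (p - 1) * (derivative H) ^ 2 := by
    have h5 : ((m : ℤ[X]) + 1) = C (p : ℤ) := by
      rw [hm]; simp
    have h6 : p + 1 = m + 2 := by omega
    have h7 : p - 1 = m := by omega
    rw [h7, h6, LL_pow, h5]
  have e4 := congrArg LL hV
  rw [r07_LL_add, r07_LL_C_mul, e1, e3, e2] at e4
  have hC : (C (p : ℤ) : ℤ[X]) ≠ 0 := by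
    rw [Ne, C_eq_zero]; exact hpz
  -- cancel
  have e5 : LL V + (4 * H ^ (p + 1) + ((m : ℤ[X]) + 2) * X * (1 - 16 * X) * H ^ (p - 1) *
      (derivative H) ^ 2) = C (p : ℤ) *
      (- (C (4 * (2 * (n : ℤ) + 1) ^ 2 * (c : ℤ) ^ 2) * X ^ n) +
        ((m : ℤ[X]) + 2) * H ^ (m + 1) * (C (4 * (Nat.centralBinom h : ℤ) ^ 2) * X ^ h)) := by
    apply mul_left_cancel₀ hC
    linear_combination (-1 : ℤ[X]) * e4
  have e6 := congrArg (Polynomial.map (Int.castRingHom (ZMod p))) e5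
  have hp0 : ((C (p : ℤ) : ℤ[X]).map (Int.castRingHom (ZMod p))) = 0 := by
    rw [Polynomial.map_C]; simp
  have hm2 : ((((m : ℤ[X]) + 2)).map (Int.castRingHom (ZMod p))) = 1 := by
    have : ((m : ℤ[X]) + 2) = C (p : ℤ) + 1 := by
      rw [hm]; simp; ring
    rw [this, Polynomial.map_add, hp0]; simp
  rw [Polynomial.map_mul (p := (C (p : ℤ))), hp0, zero_mul, Polynomial.map_add, r07_LL_map] at e6
  rw [eq_neg_iff_add_eq_zero, ← e6]
  congr 1
  simp only [Polynomial.map_add, Polynomial.map_mul, Polynomial.map_pow, Polynomial.map_sub,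
    Polynomial.map_one, Polynomial.map_X, Polynomial.map_ofNat] at hm2 ⊢
  rw [hm2, derivative_map]
  ring

end Pool.Agent.IR53
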