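import Mathlib
import Pool.Agent.LibIR53.Defs
import Pool.Agent.LibIR53.R06
import Pool.Agent.LibIR53.R07

/-!
# Row R08

Map everything to K: `H = (red p (PZ h)).map (algebraMap (ZMod p) K)`, `V' = (red p V).map _`, `CharP K p` (`charP_of_injective_algebraMap`).
`LL H = 0` (LL_red), `H ≠ 0`, `natDegree H = h < p - 1` (natDegree_red_PZ, p ≥ 5).  simple_root: `A ≠ 0`, `H'(α) ≠ 0`.
LL V' = -(4 H^(p+1) + X(1-16X) H^(p-1) H'^2) (R07).  With `H = (X - C α) * H1` (`dvd_iff_isRoot`), `H1(α) = H'(α)`; so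
`taylor α (LL V') = X^(p-1) * W` with `W(0) = -A * H'(α)^(p+1) ≠ 0`: coefficients `j < p-1` vanish and the coefficient `p-1` is not `0`.
If `V'(α) = 0` this contradicts key_char_p.
-/

namespace Pool.Agent.IR53

open Polynomial

private theorem r08_LL_map {R S : Type*} [CommRing R] [CommRing S] (f : R →+* S) (F : R[X]) :
    (LL F).map f = LL (F.map f) := by
  unfold LL
  simp [derivative_map, Polynomial.map_sub, Polynomial.map_add, Polynomial.map_mul]

theorem V_ne_zero {p h n : ℕ} [Fact p.Prime] (hp5 : 5 ≤ p) (hph : p = 2 * h + 1) (hn : n < p ^ 2)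
    (hh : h < n / p) {V : ℤ[X]} (hV : PZ n = (PZ h) ^ (p + 1) + C (p : ℤ) * V)
    {K : Type*} [Field K] [Algebra (ZMod p) K] {α : K}
    (hα : aeval α (red p (PZ h)) = 0) : aeval α (red p V) ≠ 0 := by
  intro hVα
  haveI : CharP K p := charP_of_injective_algebraMap (algebraMap (ZMod p) K).injective p
  set f := algebraMap (ZMod p) K with hf
  set H : K[X] := (red p (PZ h)).map f with hHdef
  set V' : K[X] := (red p V).map f with hVdef
  have hdegH0 : (red p (PZ h)).natDegree = h := natDegree_red_PZ hph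
  have hdegH : H.natDegree = h := by
    rw [hHdef, natDegree_map, hdegH0]
  have hh1 : 1 ≤ h := by omega
  have hH0 : H ≠ 0 := by
    intro h0
    rw [h0, natDegree_zero] at hdegH
    omega
  have hLLH : LL H = 0 := by
    rw [hHdef, ← r08_LL_map, LL_red hph, Polynomial.map_zero]
  have hdlt : H.natDegree < p - 1 := by rw [hdegH]; omega
  have hαH : H.eval α = 0 := by
    rw [hHdef, eval_map, ← aeval_def]; exact hα
  have hαV : V'.eval α = 0 := by
    rw [hVdef, eval_map, ← aeval_def]; exact hVα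
  obtain ⟨hA, hH'⟩ := simple_root hp5 hLLH hH0 hdlt hαH
  have hLLV : LL V' = - (4 * H ^ (p + 1) +
      X * (1 - 16 * X) * H ^ (p - 1) * (derivative H) ^ 2) := by
    have := congrArg (Polynomial.map f) (LL_V hph hn hh hV)
    rw [r08_LL_map] at this
    rw [hVdef, this, hHdef]
    simp only [Polynomial.map_neg, Polynomial.map_add, Polynomial.map_mul, Polynomial.map_pow,
      Polynomial.map_sub, Polynomial.map_one, Polynomial.map_X, Polynomial.map_ofNat,
      derivative_map]
  -- factor
  obtain ⟨H1, hH1⟩ := dvd_iff_isRoot.mpr (show H.IsRoot α from hαH)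
  have hH1α : H1.eval α = (derivative H).eval α := by
    rw [hH1, derivative_mul]
    simp
  set W : K[X] := - (4 * (X - C α) ^ 2 * H1 ^ (p + 1) +
      X * (1 - 16 * X) * H1 ^ (p - 1) * (derivative H) ^ 2) with hW
  have hfac : LL V' = (X - C α) ^ (p - 1) * W := by
    have hpp : p + 1 = (p - 1) + 2 := by omega
    rw [hLLV, hW]
    conv_lhs => rw [hH1]
    rw [mul_pow, mul_pow (X - C α) H1 (p - 1)]
    rw [← hH1]
    have : (X - C α) ^ (p + 1) = (X - C α) ^ (p - 1) * (X - C α) ^ 2 := by
      rw [← pow_add, ← hpp]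
    rw [this]
    ring
  have htay : taylor α (LL V') = X ^ (p - 1) * taylor α W := by
    rw [hfac, taylor_mul, taylor_pow]
    congr 2
    simp [taylor_apply]
  have hW0 : (taylor α W).coeff 0 ≠ 0 := by
    rw [taylor_coeff_zero, hW]
    simp only [eval_neg, eval_add, eval_mul, eval_pow, eval_sub, eval_X, eval_C, sub_self,
      eval_ofNat, eval_one]
    rw [hH1α]
    have : (0 : K) ^ 2 = 0 := by norm_num
    rw [this, mul_zero, zero_mul, zero_add, neg_ne_zero]
    exact mul_ne_zero (mul_ne_zero hA (pow_ne_zero _ hH')) (pow_ne_zero _ hH')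
  have hlow : ∀ j < p - 1, (taylor α (LL V')).coeff j = 0 := by
    intro j hj
    rw [htay, coeff_X_pow_mul', if_neg (by omega)]
  have hkey := key_char_p hp5 hLLH hH0 hdlt hαH hαV hlow
  rw [htay, coeff_X_pow_mul', if_pos le_rfl, Nat.sub_self] at hkey
  exact hW0 hkey

end Pool.Agent.IR53
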