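import Mathlib
import Pool.Agent.LibIR53.Defs

/-!
# Row R09: the square of a maximal ideal of `ℤ[X]`
-/

namespace Pool.Agent.IR53

open Polynomial

theorem r09_C_dvd {p : ℕ} {F : ℤ[X]} (h : red p F = 0) : ∃ G, F = C (p : ℤ) * G := by
  have : C (p : ℤ) ∣ F := by
    rw [C_dvd_iff_dvd_coeff]
    intro i
    rw [← ZMod.intCast_zmod_eq_zero_iff_dvd]
    have h1 := congrArg (fun q => coeff q i) h
    simpa [red, coeff_map] using h1
  exact this

theorem r09_div {p : ℕ} [Fact p.Prime] {K : Type*} [Field K] [Algebra (ZMod p) K] {α : K}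
    {P : ℤ[X]} (hP : P.Monic) (hPm : red p P = minpoly (ZMod p) α) {F : ℤ[X]}
    (hF : aeval α (red p F) = 0) : ∃ u v, F = P * u + C (p : ℤ) * v := by
  have h1 : red p (F %ₘ P) = 0 := by
    have h2 : red p (F %ₘ P) = (red p F) %ₘ (red p P) := by
      exact map_modByMonic _ hP
    have h3 : (red p P).Monic := hP.map _
    rw [h2, modByMonic_eq_zero_iff_dvd h3, hPm]
    exact minpoly.dvd _ _ hF
  obtain ⟨G, hG⟩ := r09_C_dvd h1
  refine ⟨F /ₘ P, G, ?_⟩
  rw [← hG]
  have := modByMonic_add_div F P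
  rw [add_comm] at this
  exact this.symm

theorem maximal_square {p : ℕ} [Fact p.Prime] {K : Type*} [Field K] [Algebra (ZMod p) K] {α : K}
    (hint : IsIntegral (ZMod p) α) {f g H V : ℤ[X]} {m : ℕ} (hm : 2 ≤ m)
    (hfg : f * g = H ^ m + C (p : ℤ) * V) (hf : aeval α (red p f) = 0)
    (hg : aeval α (red p g) = 0) (hH : aeval α (red p H) = 0) : aeval α (red p V) = 0 := by
  have hmon : (minpoly (ZMod p) α).Monic := minpoly.monic hint
  obtain ⟨P, hPm, -, hP⟩ := lifts_and_degree_eq_and_monic (f := Int.castRingHom (ZMod p))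
    (p := minpoly (ZMod p) α) (by
      rw [mem_lifts]
      exact map_surjective _ ZMod.intCast_surjective _) hmon
  obtain ⟨u1, v1, h1⟩ := r09_div hP hPm hf
  obtain ⟨u2, v2, h2⟩ := r09_div hP hPm hg
  obtain ⟨u3, v3, h3⟩ := r09_div hP hPm hH
  have hp0 : (C (p : ℤ) : ℤ[X]) ≠ 0 := by
    rw [Ne, C_eq_zero]
    exact_mod_cast (Fact.out : p.Prime).ne_zero
  have hHm : H ^ m = H ^ 2 * H ^ (m - 2) := by
    rw [← pow_add]
    congr 1
    omega
  have key : C (p : ℤ) * V = P ^ 2 * (u1 * u2 - u3 ^ 2 * H ^ (m - 2)) +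
      C (p : ℤ) * (P * (u1 * v2 + u2 * v1 - 2 * u3 * v3 * H ^ (m - 2)) +
        C (p : ℤ) * (v1 * v2 - v3 ^ 2 * H ^ (m - 2))) := by
    have e1 : C (p : ℤ) * V = f * g - H ^ 2 * H ^ (m - 2) := by
      rw [hfg, ← hHm]
      ring
    have e2 : H ^ 2 = (P * u3 + C (p : ℤ) * v3) ^ 2 := by rw [← h3]
    rw [e1, e2, h1, h2]
    ring
  have hred : red p (u1 * u2 - u3 ^ 2 * H ^ (m - 2)) = 0 := by
    have e3 := congrArg (red p) key
    have hpz : red p (C (p : ℤ)) = 0 := by
      simp [red]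
    simp only [red, Polynomial.map_add, Polynomial.map_mul, Polynomial.map_pow] at e3 hpz ⊢
    rw [hpz, zero_mul, zero_mul, add_zero] at e3
    have hne : (map (Int.castRingHom (ZMod p)) P) ^ 2 ≠ 0 := by
      apply pow_ne_zero
      rw [hPm]
      exact hmon.ne_zero
    exact (mul_eq_zero.1 e3.symm).resolve_left hne
  obtain ⟨x', hx'⟩ := r09_C_dvd hred
  have hV : V = P ^ 2 * x' + (P * (u1 * v2 + u2 * v1 - 2 * u3 * v3 * H ^ (m - 2)) +
        C (p : ℤ) * (v1 * v2 - v3 ^ 2 * H ^ (m - 2))) := by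
    apply mul_left_cancel₀ hp0
    rw [key, hx']
    ring
  have hpz : map (Int.castRingHom (ZMod p)) (C (p : ℤ)) = 0 := by
    simp
  have hPα : aeval α (map (Int.castRingHom (ZMod p)) P) = 0 := by
    rw [hPm]
    exact minpoly.aeval _ _
  rw [hV]
  simp only [red, Polynomial.map_add, Polynomial.map_mul, Polynomial.map_pow, hpz, zero_mul,
    add_zero, map_add, map_mul, map_pow, hPα]
  simp

end Pool.Agent.IR53
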