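import Mathlib
import Pool.Agent.LibIR53.Defs
import Pool.Agent.LibIR53.R03
import Pool.Agent.LibIR53.R08
import Pool.Agent.LibIR53.R09

/-!
# Row R10

V exists: all coefficients of `PZ n - (PZ h)^(p+1)` are divisible by p since the reduction is 0 (PZ_red); `C_dvd_iff_dvd_coeff`.
coprime_red: if not coprime, some irreducible factor has a root α in K = AlgebraicClosure (ZMod p) common to red f, red g
(`Polynomial.isCoprime_iff_aeval_ne_zero_of_isAlgClosed` or via gcd and `IsAlgClosed.exists_aeval_eq_zero`); then `red (PZ h)(α)^(p+1) = 0`, so H(α) = 0;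
maximal_square (m = p+1, IsIntegral from algebraic closure) gives V(α) = 0, contradiction to V_ne_zero.
dvd_natDegree_red: `red f * red g = (red (PZ h))^(p+1)`, coprime, so `Associated (d^(p+1)) (red f)` (`exists_associated_pow_of_mul_eq_pow'`),
and `natDegree` of associated polynomials over a field agree (`natDegree_eq_of_degree_eq (degree_eq_degree_of_associated ..)`), `natDegree_pow`.
-/

namespace Pool.Agent.IR53

open Polynomial

private theorem r10_V {p h n : ℕ} [Fact p.Prime] (hph : p = 2 * h + 1) (hn : n < p ^ 2)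
    (hh : h < n / p) : ∃ V : ℤ[X], PZ n = (PZ h) ^ (p + 1) + C (p : ℤ) * V := by
  have h1 : red p (PZ n - (PZ h) ^ (p + 1)) = 0 := by
    show (PZ n - (PZ h) ^ (p + 1)).map (Int.castRingHom (ZMod p)) = 0
    rw [Polynomial.map_sub, Polynomial.map_pow]
    exact sub_eq_zero.2 (PZ_red hph hn hh)
  have h2 : C (p : ℤ) ∣ PZ n - (PZ h) ^ (p + 1) := by
    rw [C_dvd_iff_dvd_coeff]
    intro i
    have h3 : (red p (PZ n - (PZ h) ^ (p + 1))).coeff i = 0 := by rw [h1, coeff_zero]
    rw [coeff_map] at h3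
    exact (ZMod.intCast_zmod_eq_zero_iff_dvd _ _).1 h3
  obtain ⟨V, hV⟩ := h2
  exact ⟨V, by rw [← hV]; ring⟩

private theorem r10_red {p h n : ℕ} [Fact p.Prime] (hph : p = 2 * h + 1) (hn : n < p ^ 2)
    (hh : h < n / p) {f g : ℤ[X]} (hfg : PZ n = f * g) :
    red p f * red p g = (red p (PZ h)) ^ (p + 1) := by
  rw [← PZ_red hph hn hh, hfg]
  exact (Polynomial.map_mul _).symm

theorem coprime_red {p h n : ℕ} [Fact p.Prime] (hp5 : 5 ≤ p) (hph : p = 2 * h + 1)
    (hn : n < p ^ 2) (hh : h < n / p) {f g : ℤ[X]} (hfg : PZ n = f * g) :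
    IsCoprime (red p f) (red p g) := by
  refine (Polynomial.isCoprime_iff_aeval_ne_zero_of_isAlgClosed (ZMod p) (AlgebraicClosure (ZMod p))
    _ _).2 fun a => ?_
  by_contra hnc
  push Not at hnc
  obtain ⟨hfa, hga⟩ := hnc
  obtain ⟨V, hV⟩ := r10_V hph hn hh
  have h1 := r10_red hph hn hh hfg
  have hH : aeval a (red p (PZ h)) = 0 := by
    have h2 := congrArg (aeval a) h1
    rw [map_mul, hfa, zero_mul, map_pow] at h2
    exact (pow_eq_zero_iff (Nat.succ_ne_zero p)).1 h2.symm
  have hint : IsIntegral (ZMod p) a := Algebra.IsIntegral.isIntegral a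
  exact V_ne_zero hp5 hph hn hh hV hH
    (maximal_square hint (by omega : 2 ≤ p + 1) (hfg.symm.trans hV) hfa hga hH)

theorem dvd_natDegree_red {p h n : ℕ} [Fact p.Prime] (hp5 : 5 ≤ p) (hph : p = 2 * h + 1)
    (hn : n < p ^ 2) (hh : h < n / p) {f g : ℤ[X]} (hfg : PZ n = f * g) :
    (p + 1) ∣ (red p f).natDegree := by
  obtain ⟨d, hd⟩ := exists_associated_pow_of_mul_eq_pow' (coprime_red hp5 hph hn hh hfg)
    (r10_red hph hn hh hfg)
  have h1 : (d ^ (p + 1)).natDegree = (red p f).natDegree :=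
    natDegree_eq_of_degree_eq (degree_eq_degree_of_associated hd)
  rw [← h1, natDegree_pow]
  exact dvd_mul_right _ _

end Pool.Agent.IR53
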