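import Mathlib
import Pool.Agent.LibIR53.Defs
import Pool.Agent.LibIR53.R01

/-!
# Row R02

Kummer for numbers with two digits: for `k < p^2`, `k = p*k1 + k0`, `2k < p^3`, the exponent of `p` in `centralBinom k` is the number of
`i` in `1..2` with `p^i ≤ 2*(k % p^i)` (`Nat.factorization_choose`, `padicValNat_choose`, or `Nat.Prime.multiplicity_choose`, with `b = 3`).
`i = 1`: `p ≤ 2*k0` iff `h < k0`.  `i = 2`: `p^2 ≤ 2k` holds since `2*k1 ≥ 2h+2 = p+1`.  So the exponent is `1` resp. `2`;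
then `s = centralBinom k / p^e` (`Nat.ordCompl`, `Nat.not_dvd_ordCompl`, `Nat.centralBinom_ne_zero`).
-/

namespace Pool.Agent.IR53

open Polynomial

private theorem r02_split {p : ℕ} (hp : p.Prime) {k e : ℕ}
    (h : padicValNat p (Nat.centralBinom k) = e) :
    ∃ s, Nat.centralBinom k = p ^ e * s ∧ ¬ p ∣ s := by
  have : Fact p.Prime := ⟨hp⟩
  obtain ⟨e', s, hs, h1⟩ :=
    Nat.exists_eq_pow_mul_and_not_dvd (Nat.centralBinom_ne_zero k) p hp.ne_one
  have hs0 : s ≠ 0 := by
    rintro rfl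
    exact hs (dvd_zero p)
  have h2 : padicValNat p (Nat.centralBinom k) = e' := by
    rw [h1, padicValNat.mul (pow_ne_zero _ hp.ne_zero) hs0, padicValNat.prime_pow,
      padicValNat.eq_zero_of_not_dvd hs, add_zero]
  have h3 : e' = e := h2.symm.trans h
  subst h3
  exact ⟨s, h1, hs⟩

private theorem r02_val {p h : ℕ} (hp : p.Prime) (hph : p = 2 * h + 1) {k : ℕ} (hk : k < p ^ 2)
    (h1 : h < k / p) : padicValNat p (Nat.centralBinom k) = if h < k % p then 2 else 1 := by
  have : Fact p.Prime := ⟨hp⟩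
  have hp2 : 2 ≤ p := hp.two_le
  have hp0 : 0 < p := hp.pos
  have hlog : Nat.log p (2 * k) < 3 := by
    refine Nat.log_lt_of_lt_pow' (by norm_num) ?_
    have h2 : p ^ 3 = p * p ^ 2 := by ring
    rw [h2]
    nlinarith
  have h3 := padicValNat_choose (p := p) (n := 2 * k) (k := k) (b := 3) (by omega) hlog
  have h4 : Nat.centralBinom k = (2 * k).choose k := rfl
  rw [h4, h3]
  have h5 : 2 * k - k = k := by omega
  rw [h5]
  have h6 : Finset.Ico 1 3 = {1, 2} := by decide
  rw [h6]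
  have h7 : k % p ^ 2 = k := Nat.mod_eq_of_lt hk
  have h8 : p ^ 2 ≤ k + k := by
    have h9 : (h + 1) * p ≤ k := by
      have h10 := Nat.div_mul_le_self k p
      have h11 : (h + 1) * p ≤ k / p * p := Nat.mul_le_mul_right p h1
      omega
    have h12 : p ^ 2 = p * (2 * h + 1) := by
      rw [← hph]
      ring
    nlinarith
  have h9 : (p ≤ k % p + k % p) ↔ h < k % p := by omega
  rw [Finset.filter_insert, Finset.filter_singleton, pow_one, h7, if_pos h8]
  split_ifs with h10 h11 h11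
  · simp
  · exact absurd (h9.1 h10) h11
  · exact absurd (h9.2 h11) h10
  · simp

theorem cb_val_one {p h : ℕ} (hp : p.Prime) (hph : p = 2 * h + 1) {k : ℕ} (hk : k < p ^ 2)
    (h1 : h < k / p) (h0 : k % p ≤ h) : ∃ s, Nat.centralBinom k = p * s ∧ ¬ p ∣ s := by
  have h2 := r02_val hp hph hk h1
  rw [if_neg (by omega)] at h2
  obtain ⟨s, h3, h4⟩ := r02_split hp h2
  rw [pow_one] at h3
  exact ⟨s, h3, h4⟩

theorem cb_val_two {p h : ℕ} (hp : p.Prime) (hph : p = 2 * h + 1) {k : ℕ} (hk : k < p ^ 2)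
    (h1 : h < k / p) (h0 : h < k % p) : ∃ s, Nat.centralBinom k = p ^ 2 * s ∧ ¬ p ∣ s := by
  have h2 := r02_val hp hph hk h1
  rw [if_pos h0] at h2
  exact r02_split hp h2

end Pool.Agent.IR53
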