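import Mathlib
import Pool.Agent.LibIR53.Defs

/-!
# Row R11

`(U*W).coeff k = ∑ over antidiagonal k` (`coeff_mul`).  For nonzero factors `padicValInt.mul`.  Each nonzero term has
`A * v(term) + B * k ≥ m + m'`, and in lowV_mul every nonzero term other than `(i,i')` has weight `> m + m'` (one of its two indices is smaller than
i resp. i', strict inequality; or is larger and then the other is smaller), so its valuation is `≥ v(U_i)+v(W_i')+1` (A > 0): divisible by that power of p
(`padicValInt_dvd_iff`).  Sum up (`Finset.sum_erase`/`Finset.dvd_sum`).  wle_mul: if `p^s` divides all terms it divides the sum.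
exists_vertices: take the minimum of the weight over `U.support` (`Finset.exists_min_image`), then the min and the max index of the argmin set.
-/

namespace Pool.Agent.IR53

open Polynomial

private theorem r11_dvd {p : ℕ} [Fact p.Prime] {a : ℤ} {s : ℕ} (h : a ≠ 0 → s ≤ padicValInt p a) :
    (p : ℤ) ^ s ∣ a := by
  by_cases ha : a = 0
  · rw [ha]; exact dvd_zero _
  · rw [padicValInt_dvd_iff]; exact Or.inr (h ha)

theorem wle_mul {p A B m m' : ℕ} [Fact p.Prime] {U W : ℤ[X]} (hU : WLe p A B m U)
    (hW : WLe p A B m' W) : WLe p A B (m + m') (U * W) := by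
  intro k hk
  by_contra hlt
  push Not at hlt
  set v := padicValInt p ((U * W).coeff k) with hv
  have hd : (p : ℤ) ^ (v + 1) ∣ (U * W).coeff k := by
    rw [coeff_mul]
    apply Finset.dvd_sum
    rintro ⟨a, b⟩ hab
    rw [Finset.HasAntidiagonal.mem_antidiagonal] at hab
    apply r11_dvd
    intro hne
    have ha : U.coeff a ≠ 0 := left_ne_zero_of_mul hne
    have hb : W.coeff b ≠ 0 := right_ne_zero_of_mul hne
    have h1 := hU a ha
    have h2 := hW b hb
    rw [padicValInt.mul ha hb]
    by_contra hcon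
    push Not at hcon
    have h3 : A * padicValInt p (U.coeff a) + A * padicValInt p (W.coeff b) ≤ A * v := by
      rw [← Nat.mul_add]
      exact Nat.mul_le_mul_left _ (by omega)
    have h4 : B * a + B * b = B * k := by rw [← Nat.mul_add, hab]
    omega
  rw [padicValInt_dvd_iff] at hd
  rcases hd with h0 | h0
  · exact hk h0
  · omega

private theorem r11_mul {p A B m m' i i' : ℕ} [Fact p.Prime] (hA : 0 < A) {U W : ℤ[X]}
    (hU : WLe p A B m U) (hW : WLe p A B m' W)
    (hUi : A * padicValInt p (U.coeff i) + B * i = m)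
    (hWi : A * padicValInt p (W.coeff i') + B * i' = m')
    (hst : ∀ a b, a + b = i + i' → (a, b) ≠ (i, i') → U.coeff a ≠ 0 → W.coeff b ≠ 0 →
      m < A * padicValInt p (U.coeff a) + B * a ∨ m' < A * padicValInt p (W.coeff b) + B * b) :
    (p : ℤ) ^ (padicValInt p (U.coeff i) + padicValInt p (W.coeff i') + 1) ∣
      (U * W).coeff (i + i') - U.coeff i * W.coeff i' := by
  rw [coeff_mul, ← Finset.add_sum_erase (Finset.HasAntidiagonal.antidiagonal (i + i'))
    (fun x : ℕ × ℕ => U.coeff x.1 * W.coeff x.2) (a := (i, i'))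
    (by rw [Finset.HasAntidiagonal.mem_antidiagonal]), add_sub_cancel_left]
  apply Finset.dvd_sum
  rintro ⟨a, b⟩ hab
  rw [Finset.mem_erase, Finset.HasAntidiagonal.mem_antidiagonal] at hab
  obtain ⟨hne', hab⟩ := hab
  simp only at hab
  apply r11_dvd
  intro hne
  have ha : U.coeff a ≠ 0 := left_ne_zero_of_mul hne
  have hb : W.coeff b ≠ 0 := right_ne_zero_of_mul hne
  have h1 := hU a ha
  have h2 := hW b hb
  have h5 := hst a b hab hne' ha hb
  rw [padicValInt.mul ha hb]
  by_contra hcon
  push Not at hcon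
  have h3 : A * padicValInt p (U.coeff a) + A * padicValInt p (W.coeff b) ≤
      A * padicValInt p (U.coeff i) + A * padicValInt p (W.coeff i') := by
    rw [← Nat.mul_add, ← Nat.mul_add]
    exact Nat.mul_le_mul_left _ (by omega)
  have h4 : B * a + B * b = B * i + B * i' := by rw [← Nat.mul_add, hab, Nat.mul_add]
  omega

theorem lowV_mul {p A B m m' i i' : ℕ} [Fact p.Prime] (hA : 0 < A) {U W : ℤ[X]}
    (hU : LowV p A B m U i) (hW : LowV p A B m' W i') :
    (p : ℤ) ^ (padicValInt p (U.coeff i) + padicValInt p (W.coeff i') + 1) ∣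
      (U * W).coeff (i + i') - U.coeff i * W.coeff i' := by
  apply r11_mul hA hU.1 hW.1 hU.2.2.1 hW.2.2.1
  intro a b hab hne ha hb
  rcases lt_trichotomy a i with h | h | h
  · exact Or.inl (hU.2.2.2 a h ha)
  · exfalso
    apply hne
    rw [h]
    have : b = i' := by omega
    rw [this]
  · exact Or.inr (hW.2.2.2 b (by omega) hb)

theorem highV_mul {p A B m m' i i' : ℕ} [Fact p.Prime] (hA : 0 < A) {U W : ℤ[X]}
    (hU : HighV p A B m U i) (hW : HighV p A B m' W i') :
    (p : ℤ) ^ (padicValInt p (U.coeff i) + padicValInt p (W.coeff i') + 1) ∣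
      (U * W).coeff (i + i') - U.coeff i * W.coeff i' := by
  apply r11_mul hA hU.1 hW.1 hU.2.2.1 hW.2.2.1
  intro a b hab hne ha hb
  rcases lt_trichotomy a i with h | h | h
  · exact Or.inr (hW.2.2.2 b (by omega) hb)
  · exfalso
    apply hne
    rw [h]
    have : b = i' := by omega
    rw [this]
  · exact Or.inl (hU.2.2.2 a h ha)

theorem exists_vertices (p A B : ℕ) {U : ℤ[X]} (hU : U ≠ 0) :
    ∃ m i I, LowV p A B m U i ∧ HighV p A B m U I ∧ i ≤ I := by
  classical
  set w : ℕ → ℕ := fun j => A * padicValInt p (U.coeff j) + B * j with hw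
  obtain ⟨j0, hj0, hmin⟩ := Finset.exists_min_image U.support w (support_nonempty.mpr hU)
  set T := U.support.filter (fun j => w j = w j0) with hT
  have hTne : T.Nonempty := ⟨j0, by rw [hT, Finset.mem_filter]; exact ⟨hj0, rfl⟩⟩
  have hmem : ∀ j ∈ T, U.coeff j ≠ 0 ∧ w j = w j0 := by
    intro j hj
    rw [hT, Finset.mem_filter, mem_support_iff] at hj
    exact hj
  have hWLe : WLe p A B (w j0) U := by
    intro j hj
    exact hmin j (mem_support_iff.mpr hj)
  have hlow := hmem _ (T.min'_mem hTne)
  have hhigh := hmem _ (T.max'_mem hTne)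
  refine ⟨w j0, T.min' hTne, T.max' hTne, ⟨hWLe, hlow.1, hlow.2, ?_⟩,
    ⟨hWLe, hhigh.1, hhigh.2, ?_⟩, T.min'_le _ (T.max'_mem hTne)⟩
  · intro j hj hne
    apply lt_of_le_of_ne (hWLe j hne)
    intro heq
    have : j ∈ T := by
      rw [hT, Finset.mem_filter, mem_support_iff]
      exact ⟨hne, heq.symm⟩
    exact absurd (T.min'_le j this) (not_le.mpr hj)
  · intro j hj hne
    apply lt_of_le_of_ne (hWLe j hne)
    intro heq
    have : j ∈ T := by
      rw [hT, Finset.mem_filter, mem_support_iff]
      exact ⟨hne, heq.symm⟩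
    exact absurd (T.le_max' j this) (not_le.mpr hj)

end Pool.Agent.IR53
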