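import Mathlib
import Pool.Agent.LibIR53.Defs
import Pool.Agent.LibIR53.R11

/-!
# Row R12

Put `u1 = U_i, u2 = U_{i+s}, w1 = W_{i'}, w2 = W_{i'+s}`; equality of weights gives `v(u1) = v(u2) + 1`, `v(w1) = v(w2)+1`.  highV_mul and hH:
`v(u2)+v(w2) = e` (compare valuations of `(U W)_{i+i'+2s}`); lowV_mul and hL consistent.  Middle coefficient `k = i+i'+s`: a nonzero term `(j,j')` has
`2s(v+v') + 2k ≥ m+m'`, i.e. `v+v' ≥ e+1`, with equality iff both indices are minima of the weight; minima of U satisfy `i ≤ j ≤ i+s` (LowV, HighV) and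
`2s v(U_j) + 2j = m`, so `s ∣ j - i`, `j ∈ {i, i+s}`.  Hence `(U W)_k = u1 w2 + u2 w1 mod p^(e+2)`, and by hM `p^(e+2) ∣ u1 w2 + u2 w1`.  Write
`u1 = p^{a+1} x1, u2 = p^a y1, w1 = p^{b+1} x2, w2 = p^b y2`, a+b = e, units mod p: `x1 y2 = - y1 x2`, `x1 x2 = x^2`, `y1 y2 = y^2` mod p (from lowV_mul with hL,
highV_mul with hH), so `(x1 y2)^2 = -(x1 x2)(y1 y2) = -(x y)^2` in ZMod p: `-1` is a square, contradiction (`ZMod.exists_sq_eq_neg_one_iff`, p % 4 = 3).
-/

namespace Pool.Agent.IR53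

open Polynomial

private theorem r12_split {p : ℕ} [Fact p.Prime] {z : ℤ} (hz : z ≠ 0) :
    ∃ x : ℤ, z = (p : ℤ) ^ (padicValInt p z) * x ∧ ¬ (p : ℤ) ∣ x := by
  obtain ⟨x, hx⟩ := padicValInt_dvd (p := p) z
  refine ⟨x, hx, ?_⟩
  rintro ⟨y, hy⟩
  have hpp : p.Prime := Fact.out
  have h : (p : ℤ) ^ (padicValInt p z + 1) ∣ z := by
    refine ⟨y, ?_⟩
    calc z = (p : ℤ) ^ (padicValInt p z) * x := hx
      _ = (p : ℤ) ^ (padicValInt p z + 1) * y := by rw [hy]; ring
  rw [padicValInt_dvd_iff] at h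
  rcases h with h | h
  · exact hz h
  · omega

private theorem r12_cmp {p : ℕ} [Fact p.Prime] {n k : ℕ} {X Y : ℤ} (hX : ¬ (p : ℤ) ∣ X)
    (hY : ¬ (p : ℤ) ∣ Y) (h : (p : ℤ) ^ (k + 1) ∣ (p : ℤ) ^ n * X - (p : ℤ) ^ k * Y) :
    n = k ∧ (p : ℤ) ∣ X - Y := by
  have hpp : p.Prime := Fact.out
  have hp0 : (p : ℤ) ≠ 0 := by exact_mod_cast hpp.ne_zero
  have key : ∀ (j : ℕ) (Z : ℤ), (p : ℤ) ^ (j + 1) ∣ (p : ℤ) ^ j * Z → (p : ℤ) ∣ Z := by
    intro j Z hZ
    rw [pow_succ] at hZ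
    exact (mul_dvd_mul_iff_left (pow_ne_zero j hp0)).mp hZ
  rcases lt_trichotomy n k with hlt | heq | hgt
  · exfalso
    apply hX
    apply key n
    have h1 : (p : ℤ) ^ (n + 1) ∣ (p : ℤ) ^ n * X - (p : ℤ) ^ k * Y :=
      (pow_dvd_pow _ (by omega)).trans h
    have h2 : (p : ℤ) ^ (n + 1) ∣ (p : ℤ) ^ k * Y := (pow_dvd_pow _ (by omega)).mul_right _
    have h3 := dvd_add h1 h2
    simpa using h3
  · subst heq
    refine ⟨rfl, key n _ ?_⟩
    have : (p : ℤ) ^ n * (X - Y) = (p : ℤ) ^ n * X - (p : ℤ) ^ n * Y := by ring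
    rw [this]; exact h
  · exfalso
    apply hY
    apply key k
    have h2 : (p : ℤ) ^ (k + 1) ∣ (p : ℤ) ^ n * X := (pow_dvd_pow _ (by omega)).mul_right _
    have h3 := dvd_sub h2 h
    simpa using h3

theorem no_half {p : ℕ} [Fact p.Prime] (hp : p % 4 = 3) {s m m' i i' e : ℕ} (hs : 0 < s)
    {U W : ℤ[X]} (hUl : LowV p (2 * s) 2 m U i) (hUh : HighV p (2 * s) 2 m U (i + s))
    (hWl : LowV p (2 * s) 2 m' W i') (hWh : HighV p (2 * s) 2 m' W (i' + s))
    (hL : ∃ x : ℤ, ¬ (p : ℤ) ∣ x ∧ (U * W).coeff (i + i') = (p : ℤ) ^ (e + 2) * x ^ 2)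
    (hH : ∃ y : ℤ, ¬ (p : ℤ) ∣ y ∧ (U * W).coeff (i + i' + 2 * s) = (p : ℤ) ^ e * y ^ 2)
    (hM : (p : ℤ) ^ (e + 2) ∣ (U * W).coeff (i + i' + s)) : False := by
  have hpp : p.Prime := Fact.out
  have hpz : Prime (p : ℤ) := Nat.prime_iff_prime_int.mp hpp
  have hA : 0 < 2 * s := by omega
  have hp0 : (p : ℤ) ≠ 0 := by exact_mod_cast hpp.ne_zero
  have h1 := lowV_mul hA hUl hWl
  have h2 := highV_mul hA hUh hWh
  obtain ⟨hUW, hu1, hu1w, hu1l⟩ := hUl
  obtain ⟨-, hu2, hu2w, hu2h⟩ := hUh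
  obtain ⟨hWW, hw1, hw1w, hw1l⟩ := hWl
  obtain ⟨-, hw2, hw2w, hw2h⟩ := hWh
  obtain ⟨x1, hx1, hx1p⟩ := r12_split (p := p) hu1
  obtain ⟨y1, hy1, hy1p⟩ := r12_split (p := p) hu2
  obtain ⟨x2, hx2, hx2p⟩ := r12_split (p := p) hw1
  obtain ⟨y2, hy2, hy2p⟩ := r12_split (p := p) hw2
  obtain ⟨x, hxp, hx⟩ := hL
  obtain ⟨y, hyp, hy⟩ := hH
  set a1 := padicValInt p (U.coeff i) with ha1
  set a := padicValInt p (U.coeff (i + s)) with ha
  set b1 := padicValInt p (W.coeff i') with hb1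
  set b := padicValInt p (W.coeff (i' + s)) with hb
  have e1 : a1 = a + 1 := by
    have : 2 * s * a1 = 2 * s * (a + 1) := by
      rw [mul_add, mul_one]; omega
    exact Nat.eq_of_mul_eq_mul_left hA this
  have e2 : b1 = b + 1 := by
    have : 2 * s * b1 = 2 * s * (b + 1) := by
      rw [mul_add, mul_one]; omega
    exact Nat.eq_of_mul_eq_mul_left hA this
  -- low end
  have hsq : ∀ {z : ℤ}, ¬ (p : ℤ) ∣ z → ¬ (p : ℤ) ∣ z ^ 2 := fun hz h => hz (hpz.dvd_of_dvd_pow h)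
  have hmul : ∀ {z w : ℤ}, ¬ (p : ℤ) ∣ z → ¬ (p : ℤ) ∣ w → ¬ (p : ℤ) ∣ z * w := by
    intro z w hz hw h
    rcases hpz.dvd_or_dvd h with h | h
    · exact hz h
    · exact hw h
  have L1 : (e + 2 = a1 + b1) ∧ (p : ℤ) ∣ x ^ 2 - x1 * x2 := by
    apply r12_cmp (hsq hxp) (hmul hx1p hx2p)
    have : (p : ℤ) ^ (e + 2) * x ^ 2 - (p : ℤ) ^ (a1 + b1) * (x1 * x2)
        = (U * W).coeff (i + i') - U.coeff i * W.coeff i' := by
      rw [hx, hx1, hx2, pow_add]; ring
    rw [this]; exact h1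
  have L2 : (e = a + b) ∧ (p : ℤ) ∣ y ^ 2 - y1 * y2 := by
    apply r12_cmp (hsq hyp) (hmul hy1p hy2p)
    have : (p : ℤ) ^ e * y ^ 2 - (p : ℤ) ^ (a + b) * (y1 * y2)
        = (U * W).coeff (i + s + (i' + s)) - U.coeff (i + s) * W.coeff (i' + s) := by
      have hidx : i + s + (i' + s) = i + i' + 2 * s := by ring
      rw [hidx, hy, hy1, hy2, pow_add]; ring
    rw [this]; exact h2
  obtain ⟨-, L1⟩ := L1
  obtain ⟨he, L2⟩ := L2
  -- middle coefficient
  have hmid : (p : ℤ) ^ (e + 2) ∣ (U * W).coeff (i + i' + s)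
      - (U.coeff i * W.coeff (i' + s) + U.coeff (i + s) * W.coeff i') := by
    have hsub : ({(i, i' + s), (i + s, i')} : Finset (ℕ × ℕ)) ⊆
        Finset.HasAntidiagonal.antidiagonal (i + i' + s) := by
      intro z hz
      simp only [Finset.mem_insert, Finset.mem_singleton] at hz
      rw [Finset.HasAntidiagonal.mem_antidiagonal]
      rcases hz with rfl | rfl
      · simp only; omega
      · simp only; omega
    have hne : ((i, i' + s) : ℕ × ℕ) ≠ (i + s, i') := by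
      intro h
      have := congrArg Prod.fst h
      simp only at this
      omega
    rw [coeff_mul, ← Finset.sum_sdiff hsub, Finset.sum_pair hne, add_sub_cancel_right]
    apply Finset.dvd_sum
    rintro ⟨j, j'⟩ hz
    rw [Finset.mem_sdiff, Finset.HasAntidiagonal.mem_antidiagonal, Finset.mem_insert, Finset.mem_singleton] at hz
    obtain ⟨hjj, hnot⟩ := hz
    simp only at hjj ⊢
    by_cases hj0 : U.coeff j = 0
    · rw [hj0, zero_mul]; exact dvd_zero _
    by_cases hj0' : W.coeff j' = 0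
    · rw [hj0', mul_zero]; exact dvd_zero _
    have hw1' := hUW j hj0
    have hw2' := hWW j' hj0'
    set c := padicValInt p (U.coeff j) with hc
    set c' := padicValInt p (W.coeff j') with hc'
    have hd : (p : ℤ) ^ (c + c') ∣ U.coeff j * W.coeff j' := by
      rw [pow_add]
      exact mul_dvd_mul (padicValInt_dvd _) (padicValInt_dvd _)
    refine (pow_dvd_pow _ ?_).trans hd
    by_contra hlt
    push Not at hlt
    have hle : c + c' ≤ a + b + 1 := by omega
    -- the weights are both minimal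
    have hm : m = 2 * s * (a + 1) + 2 * i := by rw [← e1]; omega
    have hm' : m' = 2 * s * (b + 1) + 2 * i' := by rw [← e2]; omega
    have hmulle : 2 * s * (c + c') ≤ 2 * s * (a + b + 1) := Nat.mul_le_mul_left _ hle
    have hx3 : 2 * s * (c + c') = 2 * s * c + 2 * s * c' := by ring
    have hx4 : 2 * s * (a + b + 1) + 2 * s = 2 * s * (a + 1) + 2 * s * (b + 1) := by ring
    have hUeq : 2 * s * c + 2 * j = m := by omega
    have hWeq : 2 * s * c' + 2 * j' = m' := by omega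
    have hceq : c + c' = a + b + 1 := by
      have : 2 * s * (c + c') = 2 * s * (a + b + 1) := by omega
      exact Nat.eq_of_mul_eq_mul_left hA this
    have hij : i ≤ j := by
      by_contra hcon
      push Not at hcon
      have := hu1l j hcon hj0
      rw [← hc] at this
      omega
    have hji : j ≤ i + s := by
      by_contra hcon
      push Not at hcon
      have := hu2h j hcon hj0
      rw [← hc] at this
      omega
    apply hnot
    -- c = a + 1 or c = a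
    have hca : c ≤ a + 1 := by
      by_contra hcon
      push Not at hcon
      have h5 : 2 * s * (a + 2) ≤ 2 * s * c := Nat.mul_le_mul_left _ (by omega)
      have h6 : 2 * s * (a + 2) = 2 * s * (a + 1) + 2 * s := by ring
      omega
    have hca' : a ≤ c := by
      by_contra hcon
      push Not at hcon
      have h5 : 2 * s * (c + 1) ≤ 2 * s * a := Nat.mul_le_mul_left _ (by omega)
      have h6 : 2 * s * (c + 1) = 2 * s * c + 2 * s := by ring
      have h7 : 2 * s * (a + 1) = 2 * s * a + 2 * s := by ring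
      omega
    rcases Nat.lt_or_ge c (a + 1) with hc1 | hc1
    · have hc2 : c = a := by omega
      rw [hc2] at hUeq
      have h7 : 2 * s * (a + 1) = 2 * s * a + 2 * s := by ring
      right
      have hj : j = i + s := by omega
      have hj' : j' = i' := by omega
      rw [hj, hj']
    · have hc2 : c = a + 1 := by omega
      rw [hc2] at hUeq
      left
      have hj : j = i := by omega
      have hj' : j' = i' + s := by omega
      rw [hj, hj']
  have hmid2 : (p : ℤ) ^ (a + b + 1 + 1) ∣ (p : ℤ) ^ (a + b + 1) * (x1 * y2 + y1 * x2) := by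
    have h5 := dvd_sub hM hmid
    have h6 : (U * W).coeff (i + i' + s) - ((U * W).coeff (i + i' + s)
      - (U.coeff i * W.coeff (i' + s) + U.coeff (i + s) * W.coeff i'))
      = (p : ℤ) ^ (a + b + 1) * (x1 * y2 + y1 * x2) := by
      rw [sub_sub_cancel, hx1, hx2, hy1, hy2, e1, e2]
      ring
    rw [h6, he] at h5
    exact h5
  have hmid3 : (p : ℤ) ∣ x1 * y2 + y1 * x2 := by
    rw [pow_succ (p : ℤ) (a + b + 1)] at hmid2
    exact (mul_dvd_mul_iff_left (pow_ne_zero _ hp0)).mp hmid2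
  -- to ZMod p
  have z1 : ((x ^ 2 - x1 * x2 : ℤ) : ZMod p) = 0 := (ZMod.intCast_zmod_eq_zero_iff_dvd _ p).mpr L1
  have z2 : ((y ^ 2 - y1 * y2 : ℤ) : ZMod p) = 0 := (ZMod.intCast_zmod_eq_zero_iff_dvd _ p).mpr L2
  have z3 : ((x1 * y2 + y1 * x2 : ℤ) : ZMod p) = 0 :=
    (ZMod.intCast_zmod_eq_zero_iff_dvd _ p).mpr hmid3
  have z4 : ((x * y : ℤ) : ZMod p) ≠ 0 := by
    intro h
    exact hmul hxp hyp ((ZMod.intCast_zmod_eq_zero_iff_dvd _ p).mp h)
  push_cast at z1 z2 z3 z4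
  have hneg : IsSquare (-1 : ZMod p) := by
    refine ⟨(x1 : ZMod p) * y2 / (x * y), ?_⟩
    have hq : ((x1 : ZMod p) * y2) * ((x1 : ZMod p) * y2) = - (((x : ZMod p) * y) * (x * y)) := by
      linear_combination ((x1 : ZMod p) * y2) * z3 - (y1 : ZMod p) * y2 * (-z1) - (x : ZMod p) ^ 2 * (-z2)
    rw [div_mul_div_comm, hq, neg_div, div_self (mul_ne_zero z4 z4)]
  exact (ZMod.mod_four_ne_three_of_sq_eq_neg_one (p := p) (y := hneg.choose) (by
    have := hneg.choose_spec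
    rw [sq]; exact this.symm)) hp

end Pool.Agent.IR53
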