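import Mathlib
import Pool.Agent.LibIR53.Defs
import Pool.Agent.LibIR53.R11
import Pool.Agent.LibIR53.R12

/-!
# Row R13

Weights A = K - L, B = 2.  Every nonzero coefficient of c = U W has weight ≥ 2K: j < L: v ≥ 4, `4(K-L) > 2K`; j = L: weight exactly `2(K-L)+2L = 2K`;
L < j < K: `2(K-L) + 2j > 2K`; j = K: exactly 2K; j > K: `2j > 2K`.  So the weight 2K is attained exactly at j = L and j = K.
Take vertices (exists_vertices) `m,i,I` of U and `m',i',I'` of W.  lowV_mul: c at i+i' has weight exactly m+m' (valuation v(U_i)+v(W_i')), wle_mul at K: m+m' ≤ 2K, hence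
m + m' = 2K and i+i' ∈ {L,K}.  U_b has valuation 0: m ≤ 2b, same m' ≤ 2b', so m = 2b, m' = 2b' (b+b' = K).  I = b: for j > b the weight is ≥ 2j > 2b, and b attains 2b.  Same I' = b'.
As c_L has weight 2K = m+m', not all terms at L can have larger weight, so some pair of minima (j,j') with j+j' = L, so i+i' ≤ L, so i + i' = L.
With v = v(U_i), v' = v(W_i'): (K-L) v = 2(b-i), (K-L) v' = 2(b'-i'), sum: v + v' = 2.  v = v' = 1: then b - i = b' - i' = (K-L)/2 =: s, apply no_half (e = 0, exact squares hL, hKs, h2 at the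
middle index L+s).  v = 0: b = i, b' = i' + (K-L).  v = 2: symmetric.  (if K - L = 0 nothing: K > 2L gives K-L > 0.)
-/

namespace Pool.Agent.IR53

open Polynomial

private theorem r13_val {p : ℕ} [Fact p.Prime] {z : ℤ} {n : ℕ} (hz : z ≠ 0)
    (h : (p : ℤ) ^ n ∣ z) : n ≤ padicValInt p z := by
  rw [padicValInt_dvd_iff] at h
  rcases h with h | h
  · exact absurd h hz
  · exact h

private theorem r13_val_zero {p : ℕ} [Fact p.Prime] {z : ℤ} (h : ¬ (p : ℤ) ∣ z) :
    padicValInt p z = 0 := by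
  by_contra hne
  apply h
  have h1 : (p : ℤ) ^ 1 ∣ z := (pow_dvd_pow _ (Nat.one_le_iff_ne_zero.mpr hne)).trans
    (padicValInt_dvd z)
  simpa using h1

private theorem r13_split {p : ℕ} [Fact p.Prime] {z : ℤ} (hz : z ≠ 0) :
    ∃ x : ℤ, z = (p : ℤ) ^ (padicValInt p z) * x ∧ ¬ (p : ℤ) ∣ x := by
  obtain ⟨x, hx⟩ := padicValInt_dvd (p := p) z
  refine ⟨x, hx, ?_⟩
  rintro ⟨y, hy⟩
  have h : (p : ℤ) ^ (padicValInt p z + 1) ∣ z := by
    refine ⟨y, ?_⟩
    calc z = (p : ℤ) ^ (padicValInt p z) * x := hx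
      _ = (p : ℤ) ^ (padicValInt p z + 1) * y := by rw [hy]; ring
  have := r13_val hz h
  omega

private theorem r13_exact {p : ℕ} [Fact p.Prime] {z u w : ℤ} (hu : u ≠ 0) (hw : w ≠ 0)
    (h : (p : ℤ) ^ (padicValInt p u + padicValInt p w + 1) ∣ z - u * w) :
    z ≠ 0 ∧ padicValInt p z = padicValInt p u + padicValInt p w := by
  have hpp : p.Prime := Fact.out
  have hpz : Prime (p : ℤ) := Nat.prime_iff_prime_int.mp hpp
  have hp0 : (p : ℤ) ≠ 0 := by exact_mod_cast hpp.ne_zero
  obtain ⟨x, hx, hxp⟩ := r13_split (p := p) hu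
  obtain ⟨y, hy, hyp⟩ := r13_split (p := p) hw
  set v := padicValInt p u
  set v' := padicValInt p w
  have huw : u * w = (p : ℤ) ^ (v + v') * (x * y) := by rw [hx, hy, pow_add]; ring
  have hxy : ¬ (p : ℤ) ∣ x * y := by
    intro h
    rcases hpz.dvd_or_dvd h with h | h
    · exact hxp h
    · exact hyp h
  have hnot : ¬ (p : ℤ) ^ (v + v' + 1) ∣ z := by
    intro h1
    have h2 := dvd_sub h1 h
    rw [sub_sub_cancel, huw, pow_succ] at h2
    exact hxy ((mul_dvd_mul_iff_left (pow_ne_zero _ hp0)).mp h2)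
  have hz : z ≠ 0 := fun h0 => hnot (h0 ▸ dvd_zero _)
  refine ⟨hz, le_antisymm ?_ ?_⟩
  · by_contra hcon
    push Not at hcon
    exact hnot ((pow_dvd_pow _ hcon).trans (padicValInt_dvd z))
  · apply r13_val hz
    have h1 : (p : ℤ) ^ (v + v') ∣ z - u * w := (pow_dvd_pow _ (Nat.le_succ _)).trans h
    have h2 : (p : ℤ) ^ (v + v') ∣ u * w := ⟨x * y, huw⟩
    have h3 := dvd_add h1 h2
    simpa using h3

theorem inf_lambda {p : ℕ} [Fact p.Prime] (hp : p % 4 = 3) {U W : ℤ[X]} {b b' L K : ℕ}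
    (hb : ∀ j < b, (p : ℤ) ∣ U.coeff j) (hb0 : ¬ (p : ℤ) ∣ U.coeff b)
    (hb' : ∀ j < b', (p : ℤ) ∣ W.coeff j) (hb0' : ¬ (p : ℤ) ∣ W.coeff b')
    (hK : b + b' = K) (hLK : 2 * L < K)
    (h4 : ∀ j < L, (p : ℤ) ^ 4 ∣ (U * W).coeff j)
    (h2 : ∀ j, L < j → j < K → (p : ℤ) ^ 2 ∣ (U * W).coeff j)
    (hL : ∃ s : ℤ, ¬ (p : ℤ) ∣ s ∧ (U * W).coeff L = (p : ℤ) ^ 2 * s ^ 2)
    (hKs : ∃ s : ℤ, ¬ (p : ℤ) ∣ s ∧ (U * W).coeff K = s ^ 2) :
    ∃ i i', i + i' = L ∧ LowV p (K - L) 2 (2 * b) U i ∧ LowV p (K - L) 2 (2 * b') W i' ∧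
      ((b = i ∧ b' = i' + (K - L)) ∨ (b = i + (K - L) ∧ b' = i')) := by
  have hpp : p.Prime := Fact.out
  have hpz : Prime (p : ℤ) := Nat.prime_iff_prime_int.mp hpp
  have hp0 : (p : ℤ) ≠ 0 := by exact_mod_cast hpp.ne_zero
  have hUb : U.coeff b ≠ 0 := fun h => hb0 (h ▸ dvd_zero _)
  have hWb : W.coeff b' ≠ 0 := fun h => hb0' (h ▸ dvd_zero _)
  have hU0 : U ≠ 0 := by rintro rfl; exact hUb (by simp)
  have hW0 : W ≠ 0 := by rintro rfl; exact hWb (by simp)
  obtain ⟨A, hA⟩ : ∃ A, A = K - L := ⟨_, rfl⟩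
  rw [← hA]
  have hAL : A + L = K := by omega
  have hApos : 0 < A := by omega
  obtain ⟨m, i, I, hUl, hUh, hiI⟩ := exists_vertices p A 2 hU0
  obtain ⟨m', i', I', hWl, hWh, hiI'⟩ := exists_vertices p A 2 hW0
  obtain ⟨s, hsp, hs⟩ := hL
  obtain ⟨t, htp, ht⟩ := hKs
  have hs2 : ¬ (p : ℤ) ∣ s ^ 2 := fun h => hsp (hpz.dvd_of_dvd_pow h)
  have ht2 : ¬ (p : ℤ) ∣ t ^ 2 := fun h => htp (hpz.dvd_of_dvd_pow h)
  have hmb : m ≤ 2 * b := by
    have := hUl.1 b hUb
    rw [r13_val_zero hb0] at this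
    omega
  have hmb' : m' ≤ 2 * b' := by
    have := hWl.1 b' hWb
    rw [r13_val_zero hb0'] at this
    omega
  -- the coefficient at i + i'
  obtain ⟨hc0, hcv⟩ := r13_exact hUl.2.1 hWl.2.1 (lowV_mul hApos hUl hWl)
  have hcw : A * padicValInt p ((U * W).coeff (i + i')) + 2 * (i + i') = m + m' := by
    rw [hcv, mul_add, ← hUl.2.2.1, ← hWl.2.2.1]
    ring
  -- weights of the coefficients of U * W
  have hwt : ∀ j, (U * W).coeff j ≠ 0 →
      2 * K ≤ A * padicValInt p ((U * W).coeff j) + 2 * j ∧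
      (A * padicValInt p ((U * W).coeff j) + 2 * j = 2 * K → j = L ∨ j = K) := by
    intro j hj
    rcases lt_trichotomy j L with hjL | hjL | hjL
    · have h5 := r13_val hj (h4 j hjL)
      have h6 : A * 4 ≤ A * padicValInt p ((U * W).coeff j) := Nat.mul_le_mul_left _ h5
      constructor
      · omega
      · intro h7; omega
    · subst hjL
      have h5 : padicValInt p ((U * W).coeff j) = 2 := by
        apply le_antisymm
        · by_contra hcon
          push Not at hcon
          have h7 : (p : ℤ) ^ 3 ∣ (U * W).coeff j := (pow_dvd_pow _ hcon).trans (padicValInt_dvd _)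
          rw [hs, show (3 : ℕ) = 2 + 1 from rfl, pow_succ (p : ℤ) 2] at h7
          exact hs2 ((mul_dvd_mul_iff_left (pow_ne_zero _ hp0)).mp h7)
        · exact r13_val hj ⟨_, hs⟩
      rw [h5]
      constructor
      · omega
      · intro _; left; rfl
    · rcases lt_trichotomy j K with hjK | hjK | hjK
      · have h5 := r13_val hj (h2 j hjL hjK)
        have h6 : A * 2 ≤ A * padicValInt p ((U * W).coeff j) := Nat.mul_le_mul_left _ h5
        constructor
        · omega
        · intro h7; omega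
      · subst hjK
        constructor
        · omega
        · intro _; right; rfl
      · constructor
        · omega
        · intro h7; omega
  obtain ⟨hw1, hw2⟩ := hwt _ hc0
  rw [hcw] at hw1 hw2
  have hm : m = 2 * b := by omega
  have hm' : m' = 2 * b' := by omega
  have hii := hw2 (by omega)
  subst hm
  subst hm'
  -- i + i' ≤ L
  have hleL : i + i' ≤ L := by
    by_contra hcon
    push Not at hcon
    have h3 : (p : ℤ) ^ 3 ∣ (U * W).coeff L := by
      rw [coeff_mul]
      apply Finset.dvd_sum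
      rintro ⟨j, j'⟩ hz
      rw [Finset.HasAntidiagonal.mem_antidiagonal] at hz
      simp only at hz ⊢
      by_cases hj0 : U.coeff j = 0
      · rw [hj0, zero_mul]; exact dvd_zero _
      by_cases hj0' : W.coeff j' = 0
      · rw [hj0', mul_zero]; exact dvd_zero _
      have hd : (p : ℤ) ^ (padicValInt p (U.coeff j) + padicValInt p (W.coeff j')) ∣
          U.coeff j * W.coeff j' := by
        rw [pow_add]
        exact mul_dvd_mul (padicValInt_dvd _) (padicValInt_dvd _)
      refine (pow_dvd_pow _ ?_).trans hd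
      by_contra hlt
      push Not at hlt
      have h5 := hUl.1 j hj0
      have h6 := hWl.1 j' hj0'
      have h7 : A * (padicValInt p (U.coeff j) + padicValInt p (W.coeff j')) ≤ A * 2 :=
        Nat.mul_le_mul_left _ (by omega)
      rw [mul_add] at h7
      rcases Nat.lt_or_ge j i with hji | hji
      · have h8 := hUl.2.2.2 j hji hj0
        omega
      · have h8 := hWl.2.2.2 j' (by omega) hj0'
        omega
    rw [hs, show (3 : ℕ) = 2 + 1 from rfl, pow_succ (p : ℤ) 2] at h3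
    exact hs2 ((mul_dvd_mul_iff_left (pow_ne_zero _ hp0)).mp h3)
  have hiiL : i + i' = L := by
    rcases hii with h | h
    · exact h
    · omega
  refine ⟨i, i', hiiL, hUl, hWl, ?_⟩
  have hIb : I = b := by
    have h5 := hUh.2.2.1
    rcases Nat.lt_or_ge I b with h | h
    · have h6 := hUh.2.2.2 b h hUb
      rw [r13_val_zero hb0] at h6
      omega
    · omega
  have hIb' : I' = b' := by
    have h5 := hWh.2.2.1
    rcases Nat.lt_or_ge I' b' with h | h
    · have h6 := hWh.2.2.2 b' h hWb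
      rw [r13_val_zero hb0'] at h6
      omega
    · omega
  subst hIb
  subst hIb'
  have hv1 := hUl.2.2.1
  have hv2 := hWl.2.2.1
  obtain ⟨v, hv⟩ : ∃ v, v = padicValInt p (U.coeff i) := ⟨_, rfl⟩
  obtain ⟨v', hv'⟩ : ∃ v', v' = padicValInt p (W.coeff i') := ⟨_, rfl⟩
  rw [← hv] at hv1
  rw [← hv'] at hv2
  have hvv : v + v' = 2 := by
    have h5 : A * (v + v') = A * 2 := by rw [mul_add]; omega
    exact Nat.eq_of_mul_eq_mul_left hApos h5
  have hv3 : v = 0 ∨ v = 1 ∨ v = 2 := by omega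
  rcases hv3 with h | h | h
  · left
    have h' : v' = 2 := by omega
    rw [h] at hv1
    rw [h'] at hv2
    omega
  · exfalso
    have h' : v' = 1 := by omega
    rw [h] at hv1
    rw [h'] at hv2
    obtain ⟨r, hr⟩ : ∃ r, I = i + r := ⟨I - i, by omega⟩
    have hAr : A = 2 * r := by omega
    have hr' : I' = i' + r := by omega
    have hrpos : 0 < r := by omega
    rw [hAr, hr] at hUl hUh
    rw [hAr, hr'] at hWl hWh
    refine no_half (e := 0) hp hrpos hUl hUh hWl hWh ⟨s, hsp, ?_⟩ ⟨t, htp, ?_⟩ ?_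
    · rw [hiiL, hs]
    · have h6 : i + i' + 2 * r = K := by omega
      rw [h6, ht]; ring
    · have h7 : L < i + i' + r := by omega
      have h8 : i + i' + r < K := by omega
      simpa using h2 _ h7 h8
  · right
    have h' : v' = 0 := by omega
    rw [h] at hv1
    rw [h'] at hv2
    omega

end Pool.Agent.IR53
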