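import Mathlib
import Pool.Agent.LibIR53.Defs
import Pool.Agent.LibIR53.R13

/-!
# Row R14

Weights A = L, B = 2.  Weights of c = U W: j = 0: 4L; 0 < j < L: ≥ 4L + 2j; j = L: 2L+2L = 4L; L < j < K: ≥ 2L + 2j > 4L; j = K: ≥ 2K > 4L; j > K: > 4L.  So min is 4L, attained exactly at 0 and L.
Vertices m,i0,I of U and m',i0',I' of W for these weights (exists_vertices): m + m' = 4L, i0 + i0' = 0, I + I' = L (as in R13: lowV_mul, highV_mul, wle_mul; (U W)_0 = U_0 W_0).  With t = v(U_0) - v(U_I), t' = v(W_0) - v(W_I'):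
L t = 2 I, L t' = 2 I', t + t' = 2.  t = t' = 1: no_half with s = L/2 = I = I', e = 2 (h0, hL, h4 at L/2): contradiction.  So I = 0 or I = L.
Finally i = I: convexity.  From LowV at slope K-L and HighV at slope L: with D = v(U_I) - v(U_i): `L * D ≤ 2(i - I) ≤ (K-L) * D` as integers (K-L > L), which excludes i < I.  So I ≤ i, I' ≤ i', and both sums are L, so i = I.
(inf_part below is already proved from this.)
-/

namespace Pool.Agent.IR53

open Polynomial

private theorem r14_val {p : ℕ} [Fact p.Prime] {k : ℕ} {s : ℤ} (hs : ¬ (p : ℤ) ∣ s) :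
    (p : ℤ) ^ k * s ^ 2 ≠ 0 ∧ padicValInt p ((p : ℤ) ^ k * s ^ 2) = k := by
  have hp : Prime (p : ℤ) := Nat.prime_iff_prime_int.1 Fact.out
  have hs0 : s ≠ 0 := fun h => hs (h ▸ dvd_zero _)
  have h0 : (p : ℤ) ^ k * s ^ 2 ≠ 0 := mul_ne_zero (pow_ne_zero _ hp.ne_zero) (pow_ne_zero _ hs0)
  refine ⟨h0, le_antisymm ?_ ?_⟩
  · by_contra h
    push Not at h
    have h1 : (p : ℤ) ^ (k + 1) ∣ (p : ℤ) ^ k * s ^ 2 :=
      (padicValInt_dvd_iff (k + 1) _).2 (Or.inr h)
    rw [pow_succ] at h1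
    have h2 := (mul_dvd_mul_iff_left (pow_ne_zero k hp.ne_zero)).1 h1
    exact hs (hp.dvd_of_dvd_pow h2)
  · have h1 := (padicValInt_dvd_iff (p := p) k ((p : ℤ) ^ k * s ^ 2)).1 (dvd_mul_right _ _)
    rcases h1 with h1 | h1
    · exact absurd h1 h0
    · exact h1

/-- the exact valuation at a vertex of the product -/
private theorem r14_vert {p : ℕ} [Fact p.Prime] {a b c : ℤ} (ha : a ≠ 0) (hb : b ≠ 0)
    (h : (p : ℤ) ^ (padicValInt p a + padicValInt p b + 1) ∣ c - a * b) :
    c ≠ 0 ∧ padicValInt p c = padicValInt p a + padicValInt p b := by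
  have hab : a * b ≠ 0 := mul_ne_zero ha hb
  have hv : padicValInt p (a * b) = padicValInt p a + padicValInt p b := padicValInt.mul ha hb
  have hnd : ¬ (p : ℤ) ^ (padicValInt p a + padicValInt p b + 1) ∣ a * b := by
    intro h1
    rcases (padicValInt_dvd_iff _ _).1 h1 with h2 | h2
    · exact hab h2
    · omega
  have hnd' : ¬ (p : ℤ) ^ (padicValInt p a + padicValInt p b + 1) ∣ c := by
    intro h1
    apply hnd
    have := dvd_sub h1 h
    rwa [sub_sub_cancel] at this
  have hc : c ≠ 0 := fun h1 => hnd' (h1 ▸ dvd_zero _)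
  refine ⟨hc, le_antisymm ?_ ?_⟩
  · by_contra h2
    push Not at h2
    exact hnd' ((padicValInt_dvd_iff _ _).2 (Or.inr h2))
  · have h3 : (p : ℤ) ^ (padicValInt p a + padicValInt p b) ∣ a * b :=
      (padicValInt_dvd_iff _ _).2 (Or.inr hv.ge)
    have h4 : (p : ℤ) ^ (padicValInt p a + padicValInt p b) ∣ c := by
      have h5 := dvd_add ((pow_dvd_pow (p : ℤ) (Nat.le_succ _)).trans h) h3
      rwa [sub_add_cancel] at h5
    rcases (padicValInt_dvd_iff _ _).1 h4 with h5 | h5
    · exact absurd h5 hc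
    · exact h5

/-- convexity -/
private theorem r14_conv {p : ℕ} {U : ℤ[X]} {L K m n i I : ℕ} (hLK : 2 * L < K)
    (hUi : LowV p (K - L) 2 n U i) (hUI : HighV p L 2 m U I) : I ≤ i := by
  by_contra h
  push Not at h
  obtain ⟨a1, a2, a3, a4⟩ := hUi
  obtain ⟨b1, b2, b3, b4⟩ := hUI
  have h1 := a1 I b2
  have h2 := b1 i a2
  have h3 : (K - L) * padicValInt p (U.coeff i) + 2 * i ≤
      (K - L) * padicValInt p (U.coeff I) + 2 * I := by omega
  have h4 : L * padicValInt p (U.coeff I) + 2 * I ≤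
      L * padicValInt p (U.coeff i) + 2 * i := by omega
  generalize padicValInt p (U.coeff i) = x at h3 h4
  generalize padicValInt p (U.coeff I) = y at h3 h4
  have hxy : y < x := by
    by_contra hc
    push Not at hc
    have := Nat.mul_le_mul_left L hc
    omega
  obtain ⟨d, rfl⟩ := Nat.exists_eq_add_of_lt hxy
  have hKL : L < K - L := by omega
  have h5 : L * (d + 1) < (K - L) * (d + 1) := Nat.mul_lt_mul_of_pos_right hKL (Nat.succ_pos d)
  have e1 : (K - L) * (y + d + 1) = (K - L) * y + (K - L) * (d + 1) := by ring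
  have e2 : L * (y + d + 1) = L * y + L * (d + 1) := by ring
  omega

theorem inf_mu {p : ℕ} [Fact p.Prime] (hp : p % 4 = 3) {U W : ℤ[X]} {b b' L K i i' : ℕ}
    (hL0 : 0 < L) (hLK : 2 * L < K)
    (hi : i + i' = L) (hUi : LowV p (K - L) 2 (2 * b) U i) (hWi : LowV p (K - L) 2 (2 * b') W i')
    (h4 : ∀ j < L, (p : ℤ) ^ 4 ∣ (U * W).coeff j)
    (h2 : ∀ j, L < j → j < K → (p : ℤ) ^ 2 ∣ (U * W).coeff j)
    (hL : ∃ s : ℤ, ¬ (p : ℤ) ∣ s ∧ (U * W).coeff L = (p : ℤ) ^ 2 * s ^ 2)
    (h0 : ∃ s : ℤ, ¬ (p : ℤ) ∣ s ∧ (U * W).coeff 0 = (p : ℤ) ^ 4 * s ^ 2) :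
    i = 0 ∨ i = L := by
  have hvL : (U * W).coeff L ≠ 0 ∧ padicValInt p ((U * W).coeff L) = 2 := by
    obtain ⟨s, hs, he⟩ := hL
    rw [he]
    exact r14_val hs
  have hv0 : (U * W).coeff 0 ≠ 0 ∧ padicValInt p ((U * W).coeff 0) = 4 := by
    obtain ⟨s, hs, he⟩ := h0
    rw [he]
    exact r14_val hs
  -- the weights of the product
  have hw : ∀ j, (U * W).coeff j ≠ 0 → 4 * L ≤ L * padicValInt p ((U * W).coeff j) + 2 * j ∧
      (L * padicValInt p ((U * W).coeff j) + 2 * j = 4 * L → j = 0 ∨ j = L) := by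
    intro j hj
    rcases lt_trichotomy j L with h | h | h
    · have h5 : 4 ≤ padicValInt p ((U * W).coeff j) := by
        rcases (padicValInt_dvd_iff _ _).1 (h4 j h) with h6 | h6
        · exact absurd h6 hj
        · exact h6
      have h6 := Nat.mul_le_mul_left L h5
      constructor
      · omega
      · intro h7
        left
        omega
    · subst h
      rw [hvL.2]
      exact ⟨by omega, fun _ => Or.inr rfl⟩
    · rcases lt_or_ge j K with h5 | h5
      · have h6 : 2 ≤ padicValInt p ((U * W).coeff j) := by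
          rcases (padicValInt_dvd_iff _ _).1 (h2 j h h5) with h6 | h6
          · exact absurd h6 hj
          · exact h6
        have h7 := Nat.mul_le_mul_left L h6
        exact ⟨by omega, fun _ => by omega⟩
      · exact ⟨by omega, fun _ => by omega⟩
  have hU0 : U ≠ 0 := by
    rintro rfl
    exact hv0.1 (by simp)
  have hW0 : W ≠ 0 := by
    rintro rfl
    exact hv0.1 (by simp)
  obtain ⟨m, j0, J, hUl, hUh, hUle⟩ := exists_vertices p L 2 hU0
  obtain ⟨m', j0', J', hWl, hWh, hWle⟩ := exists_vertices p L 2 hW0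
  have hlow := r14_vert hUl.2.1 hWl.2.1 (lowV_mul hL0 hUl hWl)
  have hhigh := r14_vert hUh.2.1 hWh.2.1 (highV_mul hL0 hUh hWh)
  have hmm : m + m' = 4 * L := by
    have h5 := (hw _ hlow.1).1
    have h6 := wle_mul hUl.1 hWl.1 L hvL.1
    rw [hvL.2] at h6
    rw [hlow.2] at h5
    have h7 := hUl.2.2.1
    have h8 := hWl.2.2.1
    rw [mul_add] at h5
    omega
  -- both lowest indices are 0
  have hc0 : (U * W).coeff 0 = U.coeff 0 * W.coeff 0 := by rw [mul_coeff_zero]
  have hU00 : U.coeff 0 ≠ 0 := fun h => hv0.1 (by rw [hc0, h, zero_mul])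
  have hW00 : W.coeff 0 ≠ 0 := fun h => hv0.1 (by rw [hc0, h, mul_zero])
  have hsum0 : padicValInt p (U.coeff 0) + padicValInt p (W.coeff 0) = 4 := by
    rw [← padicValInt.mul hU00 hW00, ← hc0, hv0.2]
  have hLs : L * padicValInt p (U.coeff 0) + L * padicValInt p (W.coeff 0) = 4 * L := by
    rw [← mul_add, hsum0, mul_comm]
  have ha := hUl.1 0 hU00
  have hb := hWl.1 0 hW00
  have hm1 : L * padicValInt p (U.coeff 0) = m := by omega
  have hm2 : L * padicValInt p (W.coeff 0) = m' := by omega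
  have hj0 : j0 = 0 := by
    by_contra h
    have := hUl.2.2.2 0 (Nat.pos_of_ne_zero h) hU00
    omega
  have hj0' : j0' = 0 := by
    by_contra h
    have := hWl.2.2.2 0 (Nat.pos_of_ne_zero h) hW00
    omega
  subst hj0 hj0'
  -- the sum of the highest indices is L
  have hJ : J + J' = L := by
    have h5 : J + J' = 0 ∨ J + J' = L := by
      apply (hw _ hhigh.1).2
      rw [hhigh.2, mul_add]
      have h7 := hUh.2.2.1
      have h8 := hWh.2.2.1
      omega
    rcases h5 with h5 | h5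
    · exfalso
      have h6 : J = 0 := by omega
      have h7 : J' = 0 := by omega
      subst h6 h7
      have h8 : (p : ℤ) ^ 3 ∣ (U * W).coeff L := by
        rw [coeff_mul]
        refine Finset.dvd_sum fun x hx => ?_
        rw [Finset.HasAntidiagonal.mem_antidiagonal] at hx
        by_cases hx1 : U.coeff x.1 = 0
        · rw [hx1, zero_mul]
          exact dvd_zero _
        by_cases hx2 : W.coeff x.2 = 0
        · rw [hx2, mul_zero]
          exact dvd_zero _
        refine (padicValInt_dvd_iff _ _).2 (Or.inr ?_)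
        rw [padicValInt.mul hx1 hx2]
        have a1 := hUh.1 _ hx1
        have a2 := hWh.1 _ hx2
        have a3 : m + m' < L * padicValInt p (U.coeff x.1) + 2 * x.1 +
            (L * padicValInt p (W.coeff x.2) + 2 * x.2) := by
          rcases Nat.eq_zero_or_pos x.1 with h9 | h9
          · have := hWh.2.2.2 x.2 (by omega) hx2
            omega
          · have := hUh.2.2.2 x.1 h9 hx1
            omega
        have a4 : L * 2 < L * (padicValInt p (U.coeff x.1) + padicValInt p (W.coeff x.2)) := by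
          rw [mul_add]
          omega
        exact lt_of_mul_lt_mul_left a4 (Nat.zero_le _)
      rcases (padicValInt_dvd_iff _ _).1 h8 with h9 | h9
      · exact hvL.1 h9
      · rw [hvL.2] at h9
        omega
    · exact h5
  have hconvU := r14_conv hLK hUi hUh
  have hconvW := r14_conv hLK hWi hWh
  have hiJ : i = J := by omega
  rw [hiJ]
  -- the slopes
  have e1 := hUh.2.2.1
  have e2 := hWh.2.2.1
  have e3 := hUl.2.2.1
  have e4 := hWl.2.2.1
  generalize hx : padicValInt p (U.coeff 0) = x at *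
  generalize hy : padicValInt p (U.coeff J) = y at *
  generalize hx' : padicValInt p (W.coeff 0) = x' at *
  generalize hy' : padicValInt p (W.coeff J') = y' at *
  have hyx : y ≤ x := by
    by_contra hc
    push Not at hc
    have := Nat.mul_lt_mul_of_pos_left hc hL0
    omega
  have hyx' : y' ≤ x' := by
    by_contra hc
    push Not at hc
    have := Nat.mul_lt_mul_of_pos_left hc hL0
    omega
  obtain ⟨t, rfl⟩ := Nat.exists_eq_add_of_le hyx
  obtain ⟨t', rfl⟩ := Nat.exists_eq_add_of_le hyx'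
  rw [mul_add] at hm1 hm2
  have ht : L * t = 2 * J := by omega
  have ht' : L * t' = 2 * J' := by omega
  have htt : t + t' = 2 := by
    have : L * (t + t') = L * 2 := by rw [mul_add]; omega
    exact Nat.eq_of_mul_eq_mul_left hL0 this
  have ht3 : t = 0 ∨ t = 1 ∨ t = 2 := by omega
  rcases ht3 with h | h | h
  · subst h
    left
    omega
  · exfalso
    subst h
    have h5 : t' = 1 := by omega
    subst h5
    have h6 : J' = J := by omega
    subst h6
    have h7 : L = 2 * J' := by omega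
    subst h7
    refine no_half (s := J') (m := m) (m' := m') (i := 0) (i' := 0) (e := 2) hp (by omega)
      (U := U) (W := W) hUl ?_ hWl ?_ ?_ ?_ ?_
    · rw [zero_add]; exact hUh
    · rw [zero_add]; exact hWh
    · exact h0
    · rw [zero_add, zero_add]; exact hL
    · rw [zero_add, zero_add]; exact h4 _ (by omega)
  · subst h
    right
    omega

theorem inf_part {p : ℕ} [Fact p.Prime] (hp : p % 4 = 3) {U W : ℤ[X]} {b b' L K : ℕ}
    (hb : ∀ j < b, (p : ℤ) ∣ U.coeff j) (hb0 : ¬ (p : ℤ) ∣ U.coeff b)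
    (hb' : ∀ j < b', (p : ℤ) ∣ W.coeff j) (hb0' : ¬ (p : ℤ) ∣ W.coeff b')
    (hK : b + b' = K) (hLK : 2 * L < K)
    (h4 : ∀ j < L, (p : ℤ) ^ 4 ∣ (U * W).coeff j)
    (h2 : ∀ j, L < j → j < K → (p : ℤ) ^ 2 ∣ (U * W).coeff j)
    (hL : ∃ s : ℤ, ¬ (p : ℤ) ∣ s ∧ (U * W).coeff L = (p : ℤ) ^ 2 * s ^ 2)
    (h0 : 0 < L → ∃ s : ℤ, ¬ (p : ℤ) ∣ s ∧ (U * W).coeff 0 = (p : ℤ) ^ 4 * s ^ 2)
    (hKs : ∃ s : ℤ, ¬ (p : ℤ) ∣ s ∧ (U * W).coeff K = s ^ 2) :
    b = 0 ∨ b = L ∨ b = K - L ∨ b = K := by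
  obtain ⟨i, i', hi, hUi, hWi, hor⟩ := inf_lambda hp hb hb0 hb' hb0' hK hLK h4 h2 hL hKs
  rcases Nat.eq_zero_or_pos L with hL0 | hL0
  · subst hL0
    rcases hor with ⟨h1, h3⟩ | ⟨h1, h3⟩ <;> omega
  · rcases inf_mu hp hL0 hLK hi hUi hWi h4 h2 hL (h0 hL0) with h | h <;>
      rcases hor with ⟨h1, h3⟩ | ⟨h1, h3⟩ <;> omega

end Pool.Agent.IR53
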