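import Mathlib
import Pool.Agent.LibIR53.Defs
import Pool.Agent.LibIR53.R02
import Pool.Agent.LibIR53.R03
import Pool.Agent.LibIR53.R14

/-!
# Row R15

Apply inf_part to `U = f.reverse`, `W = g.reverse` (`reverse_mul_of_domain`, `coeff_reverse`, `revAt`; f.coeff 0, g.coeff 0 = ±1 so nothing is lost).
`(U W).coeff j = (PZ n).coeff (n - j) = (centralBinom (n-j))^2` for j ≤ n.  b = natDegree f - natDegree (red f), b' same for g, K = n - h*(p+1)
(`natDegree (red f) + natDegree (red g) = natDegree (red (PZ n)) = (p+1)*h`, PZ_red, natDegree_red_PZ).  L = 0 if n % p ≤ h, L = n % p - h otherwise.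
Note `h*(p+1) = p*h + h`, n = p*(n/p) + n%p, so K - L = p*(n/p - h) + min(n%p - h,0).. ≥ ... and K > 2L since n/p ≥ h+1 (if r>h: K - L = p(n/p-h) ≥ p > h ≥ L; if r ≤ h: L = 0 < K).
Divisibilities: for n-j with quotient n/p and last digit > h: cb_val_two (p^2 | centralBinom, so p^4 | square); for h(p+1) < k ≤ n: cb_dvd; c_K: k = h(p+1) has digits (h,h):
not divisible (cb_lucas, cb_not_dvd); c_L: cb_val_one at k = n - L (last digit ≤ h); c_0 (r > h): cb_val_two.
-/

namespace Pool.Agent.IR53

open Polynomial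

private theorem r15_lt {p : ℕ} {f : ℤ[X]} {b : ℕ}
    (hb : b + (red p f).natDegree = f.natDegree) : ∀ j < b, (p : ℤ) ∣ f.reverse.coeff j := by
  intro j hj
  rw [coeff_reverse, revAt_le (by omega)]
  have h1 : (red p f).coeff (f.natDegree - j) = 0 := coeff_eq_zero_of_natDegree_lt (by omega)
  rw [coeff_map] at h1
  exact (ZMod.intCast_zmod_eq_zero_iff_dvd _ _).1 h1

private theorem r15_eq {p : ℕ} {f : ℤ[X]} {b : ℕ} (hf : red p f ≠ 0)
    (hb : b + (red p f).natDegree = f.natDegree) : ¬ (p : ℤ) ∣ f.reverse.coeff b := by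
  intro hd
  rw [coeff_reverse, revAt_le (by omega)] at hd
  have h0 : f.natDegree - b = (red p f).natDegree := by omega
  rw [h0] at hd
  have h1 := (ZMod.intCast_zmod_eq_zero_iff_dvd _ _).2 hd
  have h2 : (red p f).leadingCoeff = 0 := by
    rw [leadingCoeff, coeff_map]
    exact h1
  exact hf (leadingCoeff_eq_zero.1 h2)

private theorem r15_digits {p q t : ℕ} (ht : t < p) :
    (p * q + t) / p = q ∧ (p * q + t) % p = t := by
  constructor
  · rw [Nat.mul_add_div (by omega), Nat.div_eq_of_lt ht, add_zero]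
  · rw [Nat.mul_add_mod, Nat.mod_eq_of_lt ht]

theorem inf_PZ {p h n : ℕ} [Fact p.Prime] (hp : p % 4 = 3) (hph : p = 2 * h + 1)
    (hn : n < p ^ 2) (hh : h < n / p) {f g : ℤ[X]} (hfg : PZ n = f * g) :
    (red p f).natDegree ≤ f.natDegree ∧ (red p g).natDegree ≤ g.natDegree ∧
    (red p f).natDegree + (red p g).natDegree = h * (p + 1) ∧
    f.natDegree + g.natDegree = n ∧
    (n % p ≤ h → f.natDegree = (red p f).natDegree ∨ g.natDegree = (red p g).natDegree) ∧
    (h < n % p → f.natDegree = (red p f).natDegree ∨ g.natDegree = (red p g).natDegree ∨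
      f.natDegree = (red p f).natDegree + (n % p - h) ∨
      g.natDegree = (red p g).natDegree + (n % p - h)) := by
  have hpp : p.Prime := Fact.out
  have hPZ0 : PZ n ≠ 0 := by
    intro h0
    have h1 := PZ_coeff_zero n
    rw [h0, coeff_zero] at h1
    exact zero_ne_one h1
  have hf0 : f ≠ 0 := by
    rintro rfl
    rw [zero_mul] at hfg
    exact hPZ0 hfg
  have hg0 : g ≠ 0 := by
    rintro rfl
    rw [mul_zero] at hfg
    exact hPZ0 hfg
  have hdeg : f.natDegree + g.natDegree = n := by
    rw [← natDegree_mul hf0 hg0, ← hfg, PZ_natDegree]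
  have hredh : red p (PZ h) ≠ 0 := by
    intro h0
    have h1 : (red p (PZ h)).coeff 0 = 1 := by rw [coeff_map, PZ_coeff_zero, map_one]
    rw [h0, coeff_zero] at h1
    exact zero_ne_one h1
  have hred : red p f * red p g = (red p (PZ h)) ^ (p + 1) := by
    rw [← PZ_red hph hn hh, hfg]
    exact (Polynomial.map_mul _).symm
  have hrf0 : red p f ≠ 0 := by
    intro h0
    rw [h0, zero_mul] at hred
    exact pow_ne_zero _ hredh hred.symm
  have hrg0 : red p g ≠ 0 := by
    intro h0
    rw [h0, mul_zero] at hred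
    exact pow_ne_zero _ hredh hred.symm
  have hrdeg : (red p f).natDegree + (red p g).natDegree = h * (p + 1) := by
    rw [← natDegree_mul hrf0 hrg0, hred, natDegree_pow, natDegree_red_PZ hph, mul_comm]
  have hfle : (red p f).natDegree ≤ f.natDegree := natDegree_map_le
  have hgle : (red p g).natDegree ≤ g.natDegree := natDegree_map_le
  -- arithmetic
  obtain ⟨q, hq⟩ : ∃ q, q = n / p := ⟨_, rfl⟩
  obtain ⟨r, hr⟩ : ∃ r, r = n % p := ⟨_, rfl⟩
  have hnqr : n = p * q + r := by
    rw [hq, hr]
    exact (Nat.div_add_mod n p).symm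
  have hrp : r < p := by
    rw [hr]
    exact Nat.mod_lt _ hpp.pos
  have hhq : h < q := by
    rw [hq]
    exact hh
  have hBA : p * h + p ≤ p * q := by
    have h1 : p * (h + 1) ≤ p * q := Nat.mul_le_mul_left _ hhq
    rwa [mul_add, mul_one] at h1
  have hAh : h * (p + 1) = p * h + h := by ring
  obtain ⟨b, hb⟩ : ∃ b, b + (red p f).natDegree = f.natDegree :=
    ⟨_, Nat.sub_add_cancel hfle⟩
  obtain ⟨b', hb'⟩ : ∃ b', b' + (red p g).natDegree = g.natDegree :=
    ⟨_, Nat.sub_add_cancel hgle⟩
  have hbb : b + b' = n - h * (p + 1) := by omega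
  have hco : ∀ j ≤ n, (f.reverse * g.reverse).coeff j = (Nat.centralBinom (n - j) : ℤ) ^ 2 := by
    intro j hj
    rw [← reverse_mul_of_domain, ← hfg, coeff_reverse, PZ_natDegree, revAt_le hj, PZ_coeff,
      if_pos (Nat.sub_le _ _)]
  have hKn : n - h * (p + 1) ≤ n := Nat.sub_le _ _
  have key : b = 0 ∨ b = r - h ∨ b = (n - h * (p + 1)) - (r - h) ∨ b = n - h * (p + 1) := by
    refine inf_part hp (U := f.reverse) (W := g.reverse) (b' := b') (r15_lt hb)
      (r15_eq hrf0 hb) (r15_lt hb') (r15_eq hrg0 hb') hbb ?_ ?_ ?_ ?_ ?_ ?_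
    · omega
    · intro j hj
      have hd := r15_digits (q := q) (t := r - j) (by omega : r - j < p)
      have he : n - j = p * q + (r - j) := by omega
      rw [hco j (by omega), he]
      obtain ⟨s, hs, -⟩ := cb_val_two hpp hph (k := p * q + (r - j)) (by omega)
        (by rw [hd.1]; exact hhq) (by rw [hd.2]; omega)
      rw [hs]
      exact ⟨(s : ℤ) ^ 2, by push_cast; ring⟩
    · intro j hj1 hj2
      rw [hco j (by omega)]
      have hk : n - j < p ^ 2 := by omega
      have hdvd : p ∣ Nat.centralBinom (n - j) := by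
        refine cb_dvd hpp hph hk ?_
        by_contra hcon
        push Not at hcon
        have h1 := Nat.div_add_mod (n - j) p
        have h2 : p * ((n - j) / p) ≤ p * h := Nat.mul_le_mul_left _ hcon.2
        omega
      obtain ⟨s, hs⟩ := hdvd
      rw [hs]
      exact ⟨(s : ℤ) ^ 2, by push_cast; ring⟩
    · rw [hco (r - h) (by omega)]
      have hd := r15_digits (q := q) (t := r - (r - h)) (by omega : r - (r - h) < p)
      have he : n - (r - h) = p * q + (r - (r - h)) := by omega
      rw [he]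
      obtain ⟨s, hs, hns⟩ := cb_val_one hpp hph (k := p * q + (r - (r - h))) (by omega)
        (by rw [hd.1]; exact hhq) (by rw [hd.2]; omega)
      refine ⟨(s : ℤ), fun h1 => hns (Int.natCast_dvd_natCast.1 h1), ?_⟩
      rw [hs]
      push_cast
      ring
    · intro hL
      rw [hco 0 (Nat.zero_le _), Nat.sub_zero]
      obtain ⟨s, hs, hns⟩ := cb_val_two hpp hph hn hh (by rw [← hr]; omega)
      refine ⟨(s : ℤ), fun h1 => hns (Int.natCast_dvd_natCast.1 h1), ?_⟩
      rw [hs]
      push_cast
      ring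
    · rw [hco _ hKn]
      have he : n - (n - h * (p + 1)) = p * h + h := by omega
      have hd := r15_digits (q := h) (t := h) (by omega : h < p)
      rw [he]
      refine ⟨(Nat.centralBinom (p * h + h) : ℤ), fun h1 => ?_, rfl⟩
      have h2 : p ∣ Nat.centralBinom (p * h + h) := Int.natCast_dvd_natCast.1 h1
      have h3 := cb_lucas hpp hph (k := p * h + h) (by rw [hd.2])
      rw [hd.1, hd.2] at h3
      have h4 : p ∣ Nat.centralBinom h * Nat.centralBinom h := (h3.dvd_iff dvd_rfl).1 h2
      rcases (hpp.dvd_mul).1 h4 with h5 | h5 <;> exact cb_not_dvd hpp hph le_rfl h5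
  refine ⟨hfle, hgle, hrdeg, hdeg, fun h1 => ?_, fun h1 => ?_⟩
  · rw [← hr] at h1
    rcases key with h2 | h2 | h2 | h2 <;> omega
  · rw [← hr] at h1 ⊢
    rcases key with h2 | h2 | h2 | h2 <;> omega

end Pool.Agent.IR53
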