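import Mathlib
import Pool.Agent.LibIR53.Defs
import Pool.Agent.LibIR53.R10
import Pool.Agent.LibIR53.R15

/-!
# Row R16

Unfold GP, SA, SC (Finset.mem_filter); h := p/2, p = 2h+1, `h < n / p` from `p*(p+1) ≤ 2n` (`Nat.lt_div_iff..`/`Nat.le_div_iff_mul_le`: (h+1)*p ≤ n).
dvd_natDegree_red for f and for g (swap).  inf_PZ gives the cases; if f.natDegree = (red f).natDegree then p+1 ∣ f.natDegree (SA).
If f.natDegree = (red f).natDegree + (r - h), r = n % p > h: f.natDegree % (p+1) = r - h (r - h ≤ h < p+1), so p ∈ SC n f.natDegree: 2*(r-h)+p = 2r+1 and p < 2r.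
-/

namespace Pool.Agent.IR53

open Polynomial

theorem deg_constraint {n p : ℕ} (hp : p ∈ GP n) {f g : ℤ[X]} (hfg : PZ n = f * g) :
    p ∈ SA n f.natDegree ∨ p ∈ SA n g.natDegree ∨ p ∈ SC n f.natDegree ∨
      p ∈ SC n g.natDegree := by
  have hp' := hp
  unfold GP at hp'
  rw [Finset.mem_filter] at hp'
  obtain ⟨-, hpp, hp4, hp7, hnp, hpn⟩ := hp'
  have hfact : Fact p.Prime := ⟨hpp⟩
  obtain ⟨h, hh⟩ : ∃ h, p = 2 * h + 1 := ⟨p / 2, by omega⟩
  have hq : h < n / p := by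
    have h1 : (h + 1) * p ≤ n := by nlinarith
    have h2 : h + 1 ≤ n / p := (Nat.le_div_iff_mul_le hpp.pos).2 h1
    omega
  have hgf : PZ n = g * f := by rw [hfg, mul_comm]
  have d1 := dvd_natDegree_red (by omega) hh hnp hq hfg
  have d2 := dvd_natDegree_red (by omega) hh hnp hq hgf
  obtain ⟨-, -, -, -, c1, c2⟩ := inf_PZ hp4 hh hnp hq hfg
  have hSA : ∀ e, (p + 1) ∣ e → p ∈ SA n e := by
    intro e he
    unfold SA
    exact Finset.mem_filter.2 ⟨hp, he⟩
  have hSC : ∀ e e', (p + 1) ∣ e' → h < n % p → e = e' + (n % p - h) → p ∈ SC n e := by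
    intro e e' he' hr he
    unfold SC
    have hrp : n % p < p := Nat.mod_lt _ hpp.pos
    have hmod : e % (p + 1) = n % p - h := by
      obtain ⟨c, hc⟩ := he'
      rw [he, hc, Nat.mul_add_mod]
      exact Nat.mod_eq_of_lt (by omega)
    refine Finset.mem_filter.2 ⟨hp, ?_, ?_⟩
    · omega
    · rw [hmod]
      omega
  rcases Nat.lt_or_ge h (n % p) with hr | hr
  · rcases c2 hr with k | k | k | k
    · exact Or.inl (hSA _ (by rw [k]; exact d1))
    · exact Or.inr (Or.inl (hSA _ (by rw [k]; exact d2)))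
    · exact Or.inr (Or.inr (Or.inl (hSC _ _ d1 hr k)))
    · exact Or.inr (Or.inr (Or.inr (hSC _ _ d2 hr k)))
  · rcases c1 hr with k | k
    · exact Or.inl (hSA _ (by rw [k]; exact d1))
    · exact Or.inr (Or.inl (hSA _ (by rw [k]; exact d2)))

end Pool.Agent.IR53
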