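import Mathlib
import Pool.Agent.LibIR53.Defs
import Pool.Agent.LibPNT.PNT

/-!
# Row R21

Import Pool.Agent.LibPNT.PNT.  `Pool.Agent.LibPNT.thetaAP_tendsto` with q = 4, a = 3 (IsUnit by decide): θ(x;4,3)/x → 1/2.
For n large, primes p ≡ 3 mod 4 with x < p ≤ y, x = sqrt n, y = (1.41) sqrt n lie in GP n: n < p^2 and p(p+1) ≤ 2n (1.41^2 = 1.9881 < 2; 1.9881 n + 1.41 sqrt n ≤ 2n for large n).
Σ over these primes of log p = θ(y) - θ(x) ≥ (0.41/2 - 0.01) sqrt n for large n, and each log p ≤ log y ≤ (1/2) log n + 0.35 ≤ 0.55 log n.  So the number is ≥ 0.195/0.55 sqrt n/log n > (1/4) sqrt n/log n.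
-/

namespace Pool.Agent.IR53

open Polynomial

private theorem r21_theta : ∀ᶠ x : ℝ in Filter.atTop,
    0.2 * x < Pool.Agent.LibPNT.thetaAP (3 : ZMod 4) (1.41 * x) -
      Pool.Agent.LibPNT.thetaAP (3 : ZMod 4) x := by
  have ha : IsUnit (3 : ZMod 4) := by decide
  have h1 := Pool.Agent.LibPNT.thetaAP_tendsto ha
  have hmul : Filter.Tendsto (fun x : ℝ => 1.41 * x) Filter.atTop Filter.atTop :=
    Filter.tendsto_id.const_mul_atTop (by norm_num)
  have h2 := (h1.comp hmul).const_mul 1.41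
  have h3 := h2.sub h1
  have htot : ((Nat.totient 4 : ℕ) : ℝ)⁻¹ = 1 / 2 := by
    have : Nat.totient 4 = 2 := by decide
    rw [this]
    norm_num
  rw [htot] at h3
  have hpos : (0.2 : ℝ) < 1.41 * (1 / 2) - 1 / 2 := by norm_num
  filter_upwards [h3.eventually (lt_mem_nhds hpos), Filter.eventually_gt_atTop 0] with x hx hx0
  simp only [Function.comp_apply] at hx
  have e1 : 1.41 * (Pool.Agent.LibPNT.thetaAP (3 : ZMod 4) (1.41 * x) / (1.41 * x)) -
      Pool.Agent.LibPNT.thetaAP (3 : ZMod 4) x / x =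
      (Pool.Agent.LibPNT.thetaAP (3 : ZMod 4) (1.41 * x) -
      Pool.Agent.LibPNT.thetaAP (3 : ZMod 4) x) / x := by
    field_simp
  rw [e1, lt_div_iff₀ hx0] at hx
  exact hx

private theorem r21_sum {x y L : ℝ} (hx : 0 ≤ x) (hxy : x ≤ y) {s : Finset ℕ}
    (hs : ∀ p : ℕ, p.Prime → (p : ZMod 4) = 3 → x < p → (p : ℝ) ≤ y → p ∈ s)
    (hL : 0 ≤ L) (hL' : ∀ p : ℕ, 1 ≤ p → (p : ℝ) ≤ y → Real.log p ≤ L) :
    Pool.Agent.LibPNT.thetaAP (3 : ZMod 4) y - Pool.Agent.LibPNT.thetaAP (3 : ZMod 4) x ≤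
      s.card * L := by
  unfold Pool.Agent.LibPNT.thetaAP
  have hsub : (Finset.Icc 1 ⌊x⌋₊).filter (fun p : ℕ => p.Prime ∧ (p : ZMod 4) = 3) ⊆
      (Finset.Icc 1 ⌊y⌋₊).filter (fun p : ℕ => p.Prime ∧ (p : ZMod 4) = 3) := by
    apply Finset.filter_subset_filter
    exact Finset.Icc_subset_Icc le_rfl (Nat.floor_le_floor hxy)
  rw [← Finset.sum_sdiff hsub, add_sub_cancel_right]
  have hmem : ∀ p ∈ (Finset.Icc 1 ⌊y⌋₊).filter (fun p : ℕ => p.Prime ∧ (p : ZMod 4) = 3) \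
      (Finset.Icc 1 ⌊x⌋₊).filter (fun p : ℕ => p.Prime ∧ (p : ZMod 4) = 3),
      1 ≤ p ∧ (p : ℝ) ≤ y ∧ p ∈ s := by
    intro p hp
    rw [Finset.mem_sdiff, Finset.mem_filter, Finset.mem_filter, Finset.mem_Icc,
      Finset.mem_Icc] at hp
    obtain ⟨⟨⟨h1, h2⟩, h3, h4⟩, h5⟩ := hp
    have hy : (p : ℝ) ≤ y := (Nat.le_floor_iff (hx.trans hxy)).1 h2
    refine ⟨h1, hy, hs p h3 h4 ?_ hy⟩
    by_contra hc
    rw [not_lt] at hc
    exact h5 ⟨⟨h1, Nat.le_floor hc⟩, h3, h4⟩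
  have hcard := Finset.card_le_card (fun p hp => (hmem p hp).2.2 :
    (Finset.Icc 1 ⌊y⌋₊).filter (fun p : ℕ => p.Prime ∧ (p : ZMod 4) = 3) \
      (Finset.Icc 1 ⌊x⌋₊).filter (fun p : ℕ => p.Prime ∧ (p : ZMod 4) = 3) ⊆ s)
  refine (Finset.sum_le_sum fun p hp => hL' p (hmem p hp).1 (hmem p hp).2.1).trans ?_
  rw [Finset.sum_const, nsmul_eq_mul]
  exact mul_le_mul_of_nonneg_right (by exact_mod_cast hcard) hL

theorem GP_card : ∃ N : ℕ, ∀ n : ℕ, N ≤ n →
    Real.sqrt n / (4 * Real.log n) ≤ ((GP n).card : ℝ) := by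
  have hsq : Filter.Tendsto (fun n : ℕ => Real.sqrt (n : ℝ)) Filter.atTop Filter.atTop :=
    Real.tendsto_sqrt_atTop.comp tendsto_natCast_atTop_atTop
  have hlog : Filter.Tendsto (fun n : ℕ => Real.log (n : ℝ)) Filter.atTop Filter.atTop :=
    Real.tendsto_log_atTop.comp tendsto_natCast_atTop_atTop
  have h1 := hsq.eventually r21_theta
  have h2 := hsq.eventually (Filter.eventually_ge_atTop 120)
  have h3 := hlog.eventually (Filter.eventually_ge_atTop 9)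
  obtain ⟨N, hN⟩ := Filter.eventually_atTop.1 (h1.and (h2.and h3))
  refine ⟨N, fun n hn => ?_⟩
  obtain ⟨g1, g2, g3⟩ := hN n hn
  obtain ⟨x, hx⟩ : ∃ x : ℝ, x = Real.sqrt n := ⟨_, rfl⟩
  rw [← hx] at g1 g2 ⊢
  have hx2 : x * x = n := by
    rw [hx]
    exact Real.mul_self_sqrt (Nat.cast_nonneg n)
  have hx0 : 0 < x := by linarith
  have hlx : Real.log x = 1 / 2 * Real.log n := by
    rw [← hx2, Real.log_mul hx0.ne' hx0.ne']
    ring
  have hl41 : Real.log 1.41 ≤ 0.41 := by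
    have := Real.log_le_sub_one_of_pos (show (0 : ℝ) < 1.41 by norm_num)
    linarith
  have hly : Real.log (1.41 * x) ≤ 0.55 * Real.log n := by
    rw [Real.log_mul (by norm_num) hx0.ne', hlx]
    linarith
  have h4 := r21_sum (x := x) (y := 1.41 * x) (L := 0.55 * Real.log n) (s := GP n) hx0.le
    (by linarith) ?_ (by linarith) ?_
  · have hln : 0 < Real.log n := by linarith
    rw [div_le_iff₀ (by positivity)]
    nlinarith
  · intro p hp hp4 hxp hpy
    unfold GP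
    rw [Finset.mem_filter, Finset.mem_range]
    have e1 : p % 4 = 3 := by
      have h5 : ((p : ℕ) : ZMod 4) = ((3 : ℕ) : ZMod 4) := by
        rw [hp4]
        rfl
      have := (ZMod.natCast_eq_natCast_iff' p 3 4).1 h5
      omega
    have e2 : (n : ℝ) < (p : ℝ) ^ 2 := by nlinarith
    have e3 : (p : ℝ) * (p + 1) ≤ 2 * n := by nlinarith
    have e4 : (p : ℝ) < 2 * n + 1 := by nlinarith
    have e5 : (7 : ℝ) ≤ p := by linarith
    refine ⟨by exact_mod_cast e4, hp, e1, by exact_mod_cast e5, by exact_mod_cast e2,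
      by exact_mod_cast e3⟩
  · intro p hp1 hpy
    refine (Real.log_le_log (by exact_mod_cast hp1) hpy).trans hly

end Pool.Agent.IR53
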