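import Mathlib
import Pool.Agent.LibIR53.Defs

/-!
# Row R17

q_i = p_i + 1, e = a_i q_i, g = p2-p1, g' = p3-p2.  Identity: `(g' a1 - (g+g') a2 + g a3) * q1 q2 q3 = e * g g' (g+g')` (multiply out with e = a_i q_i; over ℤ).
So the integer D = g' a1 - (g+g') a2 + g a3 is > 0.  And e g g'(g+g') < q1 q2 q3: (g+g')^6 ≤ n, g g' (g+g') ≤ (g+g')^3, so (e g g'(g+g'))^2 ≤ e^2 n < n^3 < (q1 q2 q3)^2 since n < p_i^2.
Hence 0 < D < 1, contradiction.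
-/

namespace Pool.Agent.IR53

open Polynomial

private theorem r17_int {n e q1 q2 q3 a1 a2 a3 : ℤ} (he : 0 < e) (hen : e < n) (hq1 : 0 < q1)
    (h1 : e = q1 * a1) (h2 : e = q2 * a2) (h3 : e = q3 * a3) (h12 : q1 < q2) (h23 : q2 < q3)
    (hn1 : n < q1 ^ 2) (hn2 : n < q2 ^ 2) (hn3 : n < q3 ^ 2) (hG : (q3 - q1) ^ 6 ≤ n) : False := by
  have hq2 : 0 < q2 := hq1.trans h12
  have hq3 : 0 < q3 := hq2.trans h23
  have hn : 0 < n := he.trans hen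
  set D : ℤ := (q3 - q2) * a1 - (q3 - q1) * a2 + (q2 - q1) * a3 with hD
  have key : D * (q1 * q2 * q3) = e * ((q2 - q1) * (q3 - q2) * (q3 - q1)) := by
    have e1 : D * (q1 * q2 * q3) = (q3 - q2) * (q1 * a1) * (q2 * q3) -
        (q3 - q1) * (q2 * a2) * (q1 * q3) + (q2 - q1) * (q3 * a3) * (q1 * q2) := by
      rw [hD]
      ring
    rw [e1, ← h1, ← h2, ← h3]
    ring
  have hg : 0 < q2 - q1 := by linarith
  have hg' : 0 < q3 - q2 := by linarith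
  have hgg : 0 < q3 - q1 := by linarith
  have hpos : 0 < D * (q1 * q2 * q3) := by
    rw [key]
    positivity
  have hqqq : 0 < q1 * q2 * q3 := by positivity
  have hD1 : 1 ≤ D := by
    have : 0 < D := (pos_iff_pos_of_mul_pos hpos).2 hqqq
    linarith
  have hle : q1 * q2 * q3 ≤ e * ((q2 - q1) * (q3 - q2) * (q3 - q1)) := by
    rw [← key]
    nlinarith
  have hG3 : (q2 - q1) * (q3 - q2) * (q3 - q1) ≤ (q3 - q1) ^ 3 := by
    have e1 : (q2 - q1) * (q3 - q2) ≤ (q3 - q1) * (q3 - q1) :=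
      mul_le_mul (by linarith) (by linarith) hg'.le hgg.le
    calc (q2 - q1) * (q3 - q2) * (q3 - q1) ≤ (q3 - q1) * (q3 - q1) * (q3 - q1) :=
          mul_le_mul_of_nonneg_right e1 hgg.le
      _ = _ := by ring
  have hle2 : q1 * q2 * q3 ≤ e * (q3 - q1) ^ 3 := hle.trans (mul_le_mul_of_nonneg_left hG3 he.le)
  have hsq : (q1 * q2 * q3) ^ 2 ≤ (e * (q3 - q1) ^ 3) ^ 2 := pow_le_pow_left₀ hqqq.le hle2 2
  have h4 : (e * (q3 - q1) ^ 3) ^ 2 ≤ e ^ 2 * n := by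
    have e1 : (e * (q3 - q1) ^ 3) ^ 2 = e ^ 2 * (q3 - q1) ^ 6 := by ring
    rw [e1]
    exact mul_le_mul_of_nonneg_left hG (by positivity)
  have h5 : e ^ 2 * n < n ^ 3 := by
    have e1 : e ^ 2 < n ^ 2 := pow_lt_pow_left₀ hen he.le (by norm_num)
    calc e ^ 2 * n < n ^ 2 * n := mul_lt_mul_of_pos_right e1 hn
      _ = n ^ 3 := by ring
  have h6 : n ^ 3 ≤ (q1 * q2 * q3) ^ 2 := by
    have e1 : n * n ≤ q1 ^ 2 * q2 ^ 2 := mul_le_mul hn1.le hn2.le hn.le (by positivity)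
    have e2 : n * n * n ≤ q1 ^ 2 * q2 ^ 2 * q3 ^ 2 := mul_le_mul e1 hn3.le hn.le (by positivity)
    calc n ^ 3 = n * n * n := by ring
      _ ≤ q1 ^ 2 * q2 ^ 2 * q3 ^ 2 := e2
      _ = _ := by ring
  linarith

theorem SA_window {n e p1 p2 p3 : ℕ} (he : 0 < e) (hen : e < n) (h1 : p1 ∈ SA n e)
    (h2 : p2 ∈ SA n e) (h3 : p3 ∈ SA n e) (h12 : p1 < p2) (h23 : p2 < p3)
    (hG : (p3 - p1) ^ 6 ≤ n) : False := by
  have hx : ∀ p ∈ SA n e, n < p ^ 2 ∧ (p + 1) ∣ e := by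
    intro p hp
    rw [SA, Finset.mem_filter, GP, Finset.mem_filter] at hp
    exact ⟨hp.1.2.2.2.2.1, hp.2⟩
  obtain ⟨m1, a1, e1⟩ := hx p1 h1
  obtain ⟨m2, a2, e2⟩ := hx p2 h2
  obtain ⟨m3, a3, e3⟩ := hx p3 h3
  have hb : ∀ p : ℕ, n < p ^ 2 → (n : ℤ) < ((p : ℤ) + 1) ^ 2 := by
    intro p hp
    have h5 : (n : ℤ) < (p : ℤ) ^ 2 := by exact_mod_cast hp
    have h6 : (0 : ℤ) ≤ (p : ℤ) := Int.natCast_nonneg p
    nlinarith
  refine r17_int (n := n) (e := e) (q1 := (p1 : ℤ) + 1) (q2 := (p2 : ℤ) + 1) (q3 := (p3 : ℤ) + 1)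
    (a1 := a1) (a2 := a2) (a3 := a3) (by exact_mod_cast he) (by exact_mod_cast hen)
    (by positivity) (by exact_mod_cast e1) (by exact_mod_cast e2) (by exact_mod_cast e3)
    (by omega) (by omega) (hb p1 m1) (hb p2 m2) (hb p3 m3) ?_
  have h7 : ((p3 : ℤ) + 1 - ((p1 : ℤ) + 1)) = ((p3 - p1 : ℕ) : ℤ) := by
    rw [Nat.cast_sub (by omega)]
    ring
  rw [h7]
  exact_mod_cast hG

end Pool.Agent.IR53
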