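import Mathlib
import Pool.Agent.LibIR53.Defs

/-!
# Row R20

card_le_of_window: S ⊆ biUnion over i in range ((y-x)/G+1) of the windows (x+iG, x+iG+G] (i = (s-x-1)/G), `Finset.card_biUnion_le`, each card ≤ m.
exists_three: enumerate S increasingly (`S.orderEmbOfFin rfl`) and take the elements number 0, k, 2k; a strictly increasing map Fin -> ℕ satisfies f (j) + 1 ≤ f (j+1), so f 0 + k ≤ f k, f k + k ≤ f (2k).
-/

namespace Pool.Agent.IR53

open Polynomial

theorem card_le_of_window {S : Finset ℕ} {x y G m : ℕ} (hG : 0 < G)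
    (hS : ∀ s ∈ S, x < s ∧ s ≤ y)
    (hw : ∀ a, (S.filter (fun s => a < s ∧ s ≤ a + G)).card ≤ m) :
    S.card ≤ m * ((y - x) / G + 1) := by
  have hmap : ∀ s ∈ S, (s - x - 1) / G ∈ Finset.range ((y - x) / G + 1) := by
    intro s hs
    rw [Finset.mem_range, Nat.lt_succ_iff]
    obtain ⟨h1, h2⟩ := hS s hs
    exact Nat.div_le_div_right (by omega)
  have hfib : ∀ i ∈ Finset.range ((y - x) / G + 1),
      (S.filter (fun s => (s - x - 1) / G = i)).card ≤ m := by
    intro i _
    refine (Finset.card_le_card ?_).trans (hw (x + i * G))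
    intro s hs
    rw [Finset.mem_filter] at hs ⊢
    obtain ⟨hs1, hs2⟩ := hs
    obtain ⟨h1, h2⟩ := hS s hs1
    have h3 := Nat.div_add_mod (s - x - 1) G
    have h4 := Nat.mod_lt (s - x - 1) hG
    rw [hs2] at h3
    have h5 : G * i = i * G := Nat.mul_comm _ _
    refine ⟨hs1, ?_, ?_⟩ <;> omega
  have h := Finset.card_le_mul_card_image_of_maps_to hmap m hfib
  rwa [Finset.card_range] at h

theorem exists_three {S : Finset ℕ} {k : ℕ} (hk : 0 < k) (hS : 2 * k + 1 ≤ S.card) :
    ∃ a ∈ S, ∃ b ∈ S, ∃ c ∈ S, a + k ≤ b ∧ b + k ≤ c := by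
  have key : ∀ d i : ℕ, ∀ h : i + d < S.card,
      S.orderEmbOfFin rfl ⟨i, by omega⟩ + d ≤ S.orderEmbOfFin rfl ⟨i + d, h⟩ := by
    intro d
    induction d with
    | zero => intro i h; exact le_rfl
    | succ d ih =>
      intro i h
      have h1 := ih i (by omega)
      have h2 : S.orderEmbOfFin rfl ⟨i + d, by omega⟩ < S.orderEmbOfFin rfl ⟨i + (d + 1), h⟩ := by
        apply (S.orderEmbOfFin rfl).strictMono
        rw [Fin.lt_def]
        show i + d < i + (d + 1)
        omega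
      omega
  have h0 := key k 0 (by omega)
  have h1 := key k k (by omega)
  refine ⟨_, S.orderEmbOfFin_mem rfl ⟨0, by omega⟩, _, S.orderEmbOfFin_mem rfl ⟨0 + k, by omega⟩, _,
    S.orderEmbOfFin_mem rfl ⟨k + k, by omega⟩, h0, ?_⟩
  have e : (⟨0 + k, by omega⟩ : Fin S.card) = ⟨k, by omega⟩ := Fin.ext (Nat.zero_add k)
  rw [e]
  exact h1

end Pool.Agent.IR53
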