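import Mathlib
import Pool.Agent.LibIR53.Defs
import Pool.Agent.LibIR53.R17
import Pool.Agent.LibIR53.R20

/-!
# Row R22

card_le_of_window for S = SA n e, x = Nat.sqrt n, y = Nat.sqrt (2n), G = greatest natural with G^6 ≤ n (e.g. Nat.floor of n^(1/6); G ≥ n^(1/6)/2), m = 2: three elements of a window (a, a+G] are p1<p2<p3 with p3 - p1 < G: SA_window.
So card ≤ 2 (sqrt(2n)/G + 1) ≤ C n^(1/3) ≤ sqrt n/(40 log n) for large n.
-/

namespace Pool.Agent.IR53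

open Polynomial

theorem SA_card_bound : ∃ N : ℕ, ∀ n : ℕ, N ≤ n → ∀ e, 0 < e → e < n →
    ((SA n e).card : ℝ) ≤ Real.sqrt n / (40 * Real.log n) := by
  have hlog : ∀ᶠ x : ℝ in Filter.atTop, ‖Real.log x‖ ≤ (1 / 400) * ‖x ^ (1 / 6 : ℝ)‖ :=
    (isLittleO_log_rpow_atTop (by norm_num)).bound (by norm_num)
  have hlog' : ∀ᶠ n : ℕ in Filter.atTop, ‖Real.log (n : ℝ)‖ ≤ (1 / 400) * ‖(n : ℝ) ^ (1 / 6 : ℝ)‖ :=
    tendsto_natCast_atTop_atTop.eventually hlog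
  obtain ⟨N1, hN1⟩ := Filter.eventually_atTop.1 hlog'
  refine ⟨max N1 64, fun n hn e he hen => ?_⟩
  have hn1 : N1 ≤ n := (le_max_left _ _).trans hn
  have hn64 : 64 ≤ n := (le_max_right _ _).trans hn
  have hnR : (64 : ℝ) ≤ n := by exact_mod_cast hn64
  set t : ℝ := (n : ℝ) ^ (1 / 6 : ℝ) with ht
  have ht6 : t ^ 6 = n := by
    rw [ht, ← Real.rpow_natCast, ← Real.rpow_mul (Nat.cast_nonneg n)]
    norm_num
  have ht0 : 0 ≤ t := Real.rpow_nonneg (Nat.cast_nonneg n) _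
  have ht2 : 2 ≤ t := by
    by_contra hlt
    push Not at hlt
    have h1 : t ^ 6 < 2 ^ 6 := pow_lt_pow_left₀ hlt ht0 (by norm_num)
    rw [ht6] at h1
    norm_num at h1
    linarith
  have hlogpos : 0 < Real.log n := Real.log_pos (by linarith)
  have hL : 400 * Real.log n ≤ t := by
    have h1 := hN1 n hn1
    rw [Real.norm_of_nonneg hlogpos.le, Real.norm_of_nonneg ht0] at h1
    linarith
  obtain ⟨G, hG⟩ : ∃ G : ℕ, G = ⌊t⌋₊ := ⟨_, rfl⟩
  have hGt : (G : ℝ) ≤ t := by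
    rw [hG]
    exact Nat.floor_le ht0
  have hGt' : t < G + 1 := by
    rw [hG]
    exact Nat.lt_floor_add_one t
  have hG2 : t / 2 ≤ G := by linarith
  have hG0R : (0 : ℝ) < G := by linarith
  have hG0 : 0 < G := by exact_mod_cast hG0R
  have hG6 : G ^ 6 ≤ n := by
    have h1 : ((G ^ 6 : ℕ) : ℝ) ≤ n := by
      push_cast
      rw [← ht6]
      exact pow_le_pow_left₀ (Nat.cast_nonneg _) hGt 6
    exact_mod_cast h1
  have hcard : (SA n e).card ≤ 2 * ((Nat.sqrt (2 * n) - Nat.sqrt n) / G + 1) := by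
    refine card_le_of_window hG0 ?_ ?_
    · intro p hp
      obtain ⟨hp1, -⟩ := Finset.mem_filter.1 hp
      obtain ⟨-, -, -, -, hp7, hp8⟩ := Finset.mem_filter.1 hp1
      exact ⟨Nat.sqrt_lt'.2 hp7, Nat.le_sqrt'.2 (by nlinarith)⟩
    · intro a
      by_contra hcon
      push Not at hcon
      obtain ⟨p1, h1, p2, h2, p3, h3, h12, h23⟩ := exists_three (k := 1) one_pos
        (by omega : 2 * 1 + 1 ≤ ((SA n e).filter (fun s => a < s ∧ s ≤ a + G)).card)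
      obtain ⟨h1a, h1b⟩ := Finset.mem_filter.1 h1
      obtain ⟨h2a, h2b⟩ := Finset.mem_filter.1 h2
      obtain ⟨h3a, h3b⟩ := Finset.mem_filter.1 h3
      exact SA_window he hen h1a h2a h3a (by omega) (by omega)
        ((Nat.pow_le_pow_left (by omega : p3 - p1 ≤ G) 6).trans hG6)
  have hy : ((Nat.sqrt (2 * n) : ℕ) : ℝ) ≤ 2 * t ^ 3 := by
    have h1 : ((Nat.sqrt (2 * n) : ℕ) : ℝ) ^ 2 ≤ (2 * t ^ 3) ^ 2 := by
      have h2 : Nat.sqrt (2 * n) ^ 2 ≤ 2 * n := Nat.sqrt_le' _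
      have h3 : ((Nat.sqrt (2 * n) : ℕ) : ℝ) ^ 2 ≤ 2 * n := by exact_mod_cast h2
      have h4 : (2 * t ^ 3) ^ 2 = 4 * t ^ 6 := by ring
      rw [h4, ht6]
      linarith
    exact le_of_pow_le_pow_left₀ (by norm_num) (by positivity) h1
  have hsq : Real.sqrt n = t ^ 3 := by
    rw [← ht6]
    have h1 : t ^ 6 = (t ^ 3) ^ 2 := by ring
    rw [h1]
    exact Real.sqrt_sq (by positivity)
  have hc1 : ((SA n e).card : ℝ) ≤ 10 * t ^ 2 := by
    have h1 : ((SA n e).card : ℝ) ≤ 2 * ((((Nat.sqrt (2 * n) - Nat.sqrt n) / G : ℕ) : ℝ) + 1) := by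
      exact_mod_cast hcard
    have h2 : (((Nat.sqrt (2 * n) - Nat.sqrt n) / G : ℕ) : ℝ) ≤
        ((Nat.sqrt (2 * n) - Nat.sqrt n : ℕ) : ℝ) / G := Nat.cast_div_le
    have h3 : ((Nat.sqrt (2 * n) - Nat.sqrt n : ℕ) : ℝ) ≤ 2 * t ^ 3 :=
      (Nat.cast_le.2 (Nat.sub_le _ _)).trans hy
    have h4 : ((Nat.sqrt (2 * n) - Nat.sqrt n : ℕ) : ℝ) / G ≤ 4 * t ^ 2 := by
      rw [div_le_iff₀ hG0R]
      have h5 : 4 * t ^ 2 * (t / 2) ≤ 4 * t ^ 2 * G :=
        mul_le_mul_of_nonneg_left hG2 (by positivity)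
      have h6 : 4 * t ^ 2 * (t / 2) = 2 * t ^ 3 := by ring
      linarith
    have h7 : 1 ≤ t ^ 2 := one_le_pow₀ (by linarith)
    linarith
  refine hc1.trans ?_
  rw [hsq, le_div_iff₀ (by positivity)]
  have h8 : 10 * t ^ 2 * (40 * Real.log n) = t ^ 2 * (400 * Real.log n) := by ring
  have h9 : t ^ 3 = t ^ 2 * t := by ring
  rw [h8, h9]
  exact mul_le_mul_of_nonneg_left hL (by positivity)

end Pool.Agent.IR53
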