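import Mathlib
import Pool.Agent.LibIR53.Defs

/-!
# Row R18

SC_eq: p = 2h+1, e = a (p+1) + (r-h), n = n1 p + r (a = e/(p+1), n1 = n/p, r = n%p), so 2(n-e)+1+2a = p (2 n1 + 1 - 2 a) (and a ≤ n1 because the left side is positive); Y = 2 n1 + 1 - 2a.
SC_card_small: the map p ↦ Y = (2(n-e)+1+2(e/(p+1)))/p is injective on SC n e: if p < p' and the same Y then (p'-p) Y = 2(a' - a) ≤ 0 but Y ≥ 1.
Its values lie in [1, (T+1)/(sqrt n+1) + 2], T = 2(n-e): a ≤ p-1 because e < n < p^2, so p Y ≤ T+1+2(p-1), and p ≥ sqrt n + 1. `Finset.card_le_card_of_injOn`.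
-/

namespace Pool.Agent.IR53

open Polynomial

theorem SC_eq {n e p : ℕ} (hen : e ≤ n) (hp : p ∈ SC n e) :
    ∃ Y : ℕ, p * Y = 2 * (n - e) + 1 + 2 * (e / (p + 1)) := by
  unfold SC at hp
  rw [Finset.mem_filter] at hp
  obtain ⟨_, h1, h2⟩ := hp
  have hd : (p : ℤ) ∣ ((2 * (n - e) + 1 + 2 * (e / (p + 1)) : ℕ) : ℤ) := by
    have e1 : ((n / p : ℕ) : ℤ) * p + ((n % p : ℕ) : ℤ) = n := by
      have := Nat.div_add_mod n p
      rw [mul_comm] at this
      exact_mod_cast this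
    have e2 : ((e / (p + 1) : ℕ) : ℤ) * ((p : ℤ) + 1) + ((e % (p + 1) : ℕ) : ℤ) = e := by
      have := Nat.div_add_mod e (p + 1)
      rw [mul_comm] at this
      exact_mod_cast this
    have e3 : 2 * ((e % (p + 1) : ℕ) : ℤ) + p = 2 * ((n % p : ℕ) : ℤ) + 1 := by
      exact_mod_cast h2
    refine ⟨2 * ((n / p : ℕ) : ℤ) + 1 - 2 * ((e / (p + 1) : ℕ) : ℤ), ?_⟩
    have e4 : ((2 * (n - e) + 1 + 2 * (e / (p + 1)) : ℕ) : ℤ) =
        2 * ((n : ℤ) - e) + 1 + 2 * ((e / (p + 1) : ℕ) : ℤ) := by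
      rw [Nat.cast_add, Nat.cast_add, Nat.cast_mul, Nat.cast_mul, Nat.cast_sub hen]
      norm_num
    rw [e4]
    linear_combination (-2 : ℤ) * e1 + 2 * e2 - e3
  obtain ⟨Y, hY⟩ := Int.natCast_dvd_natCast.mp hd
  exact ⟨Y, hY.symm⟩

theorem SC_card_small {n e : ℕ} (hen : e < n) :
    (SC n e).card ≤ (2 * (n - e) + 1) / (Nat.sqrt n + 1) + 2 := by
  set M := (2 * (n - e) + 1) / (Nat.sqrt n + 1) + 2 with hM
  have hcard : (Finset.Icc 1 M).card = M := by simp
  rw [← hcard]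
  have hpos : ∀ p ∈ SC n e, 7 ≤ p ∧ n < p ^ 2 := by
    intro p hp
    unfold SC GP at hp
    rw [Finset.mem_filter, Finset.mem_filter] at hp
    exact ⟨hp.1.2.2.2.1, hp.1.2.2.2.2.1⟩
  have hval : ∀ p ∈ SC n e, p * ((2 * (n - e) + 1 + 2 * (e / (p + 1))) / p) =
      2 * (n - e) + 1 + 2 * (e / (p + 1)) := by
    intro p hp
    obtain ⟨Y, hY⟩ := SC_eq hen.le hp
    exact Nat.mul_div_cancel' ⟨Y, hY.symm⟩
  apply Finset.card_le_card_of_injOn (fun p => (2 * (n - e) + 1 + 2 * (e / (p + 1))) / p)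
  · intro p hp
    have hp' : p ∈ SC n e := hp
    obtain ⟨h7, hn⟩ := hpos p hp'
    have hv := hval p hp'
    simp only [Finset.coe_Icc, Set.mem_Icc]
    generalize (2 * (n - e) + 1 + 2 * (e / (p + 1))) / p = Y at hv ⊢
    have hY1 : 1 ≤ Y := by
      rcases Nat.eq_zero_or_pos Y with h0 | h0
      · rw [h0] at hv
        omega
      · exact h0
    refine ⟨hY1, ?_⟩
    have ha : e / (p + 1) < p := by
      rw [Nat.div_lt_iff_lt_mul (by omega)]
      nlinarith
    have hs : Nat.sqrt n + 1 ≤ p := by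
      have : Nat.sqrt n < p := by
        rw [Nat.sqrt_lt']
        exact hn
      omega
    have h1 : (2 * (n - e) + 1) / p ≤ (2 * (n - e) + 1) / (Nat.sqrt n + 1) :=
      Nat.div_le_div_left hs (by omega)
    have h2 : Y ≤ (2 * (n - e) + 1) / p + 2 := by
      have h3 : p * Y ≤ (2 * (n - e) + 1) + p * 2 := by
        rw [hv]; omega
      have h4 : Y ≤ ((2 * (n - e) + 1) + p * 2) / p := by
        rw [Nat.le_div_iff_mul_le (by omega)]
        rw [mul_comm]; exact h3
      rwa [Nat.add_mul_div_left _ _ (by omega : 0 < p)] at h4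
    omega
  · intro p hp q hq hpq
    have hp' : p ∈ SC n e := hp
    have hq' : q ∈ SC n e := hq
    simp only at hpq
    have hvp := hval p hp'
    have hvq := hval q hq'
    rw [← hpq] at hvq
    generalize (2 * (n - e) + 1 + 2 * (e / (p + 1))) / p = Y at hvp hvq
    have h3 : 0 < Y := by
      rcases Nat.eq_zero_or_pos Y with h0 | h0
      · rw [h0] at hvp
        omega
      · exact h0
    rcases lt_trichotomy p q with h | h | h
    · exfalso
      have h1 : e / (q + 1) ≤ e / (p + 1) := Nat.div_le_div_left (by omega) (by omega)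
      have h2 : q * Y ≤ p * Y := by omega
      have := Nat.le_of_mul_le_mul_right h2 h3
      omega
    · exact h
    · exfalso
      have h1 : e / (p + 1) ≤ e / (q + 1) := Nat.div_le_div_left (by omega) (by omega)
      have h2 : p * Y ≤ q * Y := by omega
      have := Nat.le_of_mul_le_mul_right h2 h3
      omega

end Pool.Agent.IR53
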