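import Mathlib
import Pool.Agent.LibIR53.Defs
import Pool.Agent.LibIR53.R18

/-!
# Row R19: three elements of `SC n e` close together
-/

namespace Pool.Agent.IR53

open Polynomial

theorem r19_id {x1 x2 x3 g g' : ℝ} (h1 : 0 < x1) (h2 : 0 < x2) (h3 : 0 < x3)
    (e1 : x2 = x1 + g) (e2 : x3 = x2 + g') :
    g' / x1 - (g + g') / x2 + g / x3 = g * g' * (g + g') / (x1 * x2 * x3) := by
  field_simp
  subst e2
  subst e1
  ring

theorem r19_data {n e p : ℕ} (hen : e ≤ n) (hp : p ∈ SC n e) :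
    ∃ (Y : ℕ) (ρ : ℝ), 0 < ρ ∧ ρ < 1 / ((p : ℝ) + 1) ∧
      (Y : ℝ) = (2 * ((n : ℝ) - e) + 1) / p + 2 * e * (1 / (p : ℝ) - 1 / ((p : ℝ) + 1)) - ρ := by
  obtain ⟨Y, hY⟩ := SC_eq hen hp
  simp only [SC, GP, Finset.mem_filter, Finset.mem_range] at hp
  obtain ⟨⟨-, hpr, -, h7, -, -⟩, hlt, heq⟩ := hp
  have hmod : n % p < p := Nat.mod_lt _ (by omega)
  have hr1 : 1 ≤ e % (p + 1) := by omega
  have hr2 : 2 * (e % (p + 1)) < p := by omega
  have hdiv := Nat.div_add_mod e (p + 1)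
  set a := e / (p + 1) with ha
  set r := e % (p + 1) with hr
  have hp0 : (0 : ℝ) < p := by exact_mod_cast (by omega : 0 < p)
  have hq0 : (0 : ℝ) < (p : ℝ) + 1 := by linarith
  have hdivR : ((p : ℝ) + 1) * a + r = e := by exact_mod_cast hdiv
  have hYR : (p : ℝ) * Y = 2 * ((n : ℝ) - e) + 1 + 2 * a := by
    have h1 : ((p * Y : ℕ) : ℝ) = ((2 * (n - e) + 1 + 2 * a : ℕ) : ℝ) := by rw [hY]
    push_cast [Nat.cast_sub hen] at h1
    linarith
  have hr1R : (1 : ℝ) ≤ r := by exact_mod_cast hr1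
  have hr2R : 2 * (r : ℝ) < p := by exact_mod_cast hr2
  refine ⟨Y, 2 * r / (p * (p + 1)), by positivity, ?_, ?_⟩
  · rw [div_lt_div_iff₀ (by positivity) hq0]
    nlinarith
  · have hYe : (Y : ℝ) = (2 * ((n : ℝ) - e) + 1 + 2 * a) / p := by
      rw [eq_div_iff hp0.ne']
      linarith
    have hae : (a : ℝ) = (e - r) / (p + 1) := by
      rw [eq_div_iff hq0.ne']
      linarith
    rw [hYe, hae]
    field_simp
    ring

theorem SC_window {n e p1 p2 p3 : ℕ} (he : 0 < e) (hen : e < n) (hn : 10 ^ 6 ≤ n)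
    (h1 : p1 ∈ SC n e) (h2 : p2 ∈ SC n e) (h3 : p3 ∈ SC n e) (h12 : p1 < p2) (h23 : p2 < p3)
    (hG : (p3 - p1) ^ 6 ≤ n) (hT : 2 * n ≤ (p2 - p1) * (p3 - p2) * (2 * (n - e) + 1)) :
    False := by
  obtain ⟨Y1, ρ1, hρ1, hρ1', hY1⟩ := r19_data hen.le h1
  obtain ⟨Y2, ρ2, hρ2, hρ2', hY2⟩ := r19_data hen.le h2
  obtain ⟨Y3, ρ3, hρ3, hρ3', hY3⟩ := r19_data hen.le h3
  simp only [SC, GP, Finset.mem_filter, Finset.mem_range] at h1 h2 h3
  obtain ⟨⟨-, -, -, a1, b1, c1⟩, -, -⟩ := h1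
  obtain ⟨⟨-, -, -, a2, b2, c2⟩, -, -⟩ := h2
  obtain ⟨⟨-, -, -, a3, b3, c3⟩, -, -⟩ := h3
  obtain ⟨g, hg⟩ : ∃ g, p2 = p1 + g := ⟨p2 - p1, by omega⟩
  obtain ⟨g', hg'⟩ : ∃ g', p3 = p2 + g' := ⟨p3 - p2, by omega⟩
  have hgp : 1 ≤ g := by omega
  have hgp' : 1 ≤ g' := by omega
  have e1 : p3 - p1 = g + g' := by omega
  have e2 : p2 - p1 = g := by omega
  have e3 : p3 - p2 = g' := by omega
  rw [e1] at hG
  rw [e2, e3] at hT
  -- reals
  have hp1 : (0 : ℝ) < p1 := by exact_mod_cast (by omega : 0 < p1)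
  have hp2 : (0 : ℝ) < p2 := by exact_mod_cast (by omega : 0 < p2)
  have hp3 : (0 : ℝ) < p3 := by exact_mod_cast (by omega : 0 < p3)
  have hgR : (1 : ℝ) ≤ g := by exact_mod_cast hgp
  have hgR' : (1 : ℝ) ≤ g' := by exact_mod_cast hgp'
  have k1 : (p2 : ℝ) = p1 + g := by exact_mod_cast hg
  have k2 : (p3 : ℝ) = p2 + g' := by exact_mod_cast hg'
  have hnR : (10 : ℝ) ^ 6 ≤ n := by exact_mod_cast hn
  have hGR : ((g : ℝ) + g') ^ 6 ≤ n := by exact_mod_cast hG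
  have hTR : 2 * (n : ℝ) ≤ g * g' * (2 * ((n : ℝ) - e) + 1) := by
    have h4 : ((2 * n : ℕ) : ℝ) ≤ ((g * g' * (2 * (n - e) + 1) : ℕ) : ℝ) := by exact_mod_cast hT
    push_cast [Nat.cast_sub hen.le] at h4
    exact h4
  have heR : (1 : ℝ) ≤ e := by exact_mod_cast he
  have henR : (e : ℝ) + 1 ≤ n := by exact_mod_cast hen
  have B1 : (n : ℝ) < (p1 : ℝ) ^ 2 := by exact_mod_cast b1
  have B2 : (n : ℝ) < (p2 : ℝ) ^ 2 := by exact_mod_cast b2
  have B3 : (n : ℝ) < (p3 : ℝ) ^ 2 := by exact_mod_cast b3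
  have C3 : (p3 : ℝ) * (p3 + 1) ≤ 2 * n := by exact_mod_cast c3
  have i1 := r19_id (x1 := (p1 : ℝ)) (x2 := p2) (x3 := p3) hp1 hp2 hp3 k1 k2
  have i2 := r19_id (x1 := (p1 : ℝ) + 1) (x2 := (p2 : ℝ) + 1) (x3 := (p3 : ℝ) + 1) (g := g)
    (g' := g') (by linarith) (by linarith) (by linarith) (by linarith) (by linarith)
  set P : ℝ := (p1 : ℝ) * p2 * p3 with hPdef
  set Q : ℝ := ((p1 : ℝ) + 1) * (p2 + 1) * (p3 + 1) with hQdef
  set V : ℝ := (g : ℝ) * g' * (g + g') with hVdef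
  set N0 : ℝ := 2 * ((n : ℝ) - e) + 1 with hN0
  have hP0 : 0 < P := by positivity
  have hQ0 : 0 < Q := by positivity
  have hV0 : 0 < V := by positivity
  have hD : (g' : ℝ) * Y1 - (g + g') * Y2 + g * Y3 =
      N0 * (V / P) + 2 * e * (V / P - V / Q) - (g' * ρ1 - (g + g') * ρ2 + g * ρ3) := by
    rw [hY1, hY2, hY3, ← i1, ← i2]
    ring
  have hPQ : P < Q := by
    rw [hPdef, hQdef]
    have q1 : (p1 : ℝ) * p2 < (p1 + 1) * (p2 + 1) :=
      mul_lt_mul'' (by linarith) (by linarith) hp1.le hp2.le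
    exact mul_lt_mul'' q1 (by linarith) (by positivity) hp3.le
  have hVPQ : 0 ≤ V / P - V / Q := by
    have : V / Q ≤ V / P := div_le_div_of_nonneg_left hV0.le hP0 hPQ.le
    linarith
  -- lower bound
  have hlow : (g + g' : ℝ) / (p1 + 1) < N0 * (V / P) := by
    have h5 : (p2 : ℝ) * p3 ≤ 2 * n := by
      have q1 : (p2 : ℝ) * p3 ≤ p3 * (p3 + 1) := by
        rw [mul_comm (p2 : ℝ)]
        exact mul_le_mul_of_nonneg_left (by linarith) hp3.le
      linarith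
    have h6 : (g + g' : ℝ) / p1 ≤ N0 * (V / P) := by
      rw [mul_div_assoc', div_le_div_iff₀ hp1 hP0, hPdef, hVdef]
      have h7 : (p2 : ℝ) * p3 ≤ g * g' * N0 := le_trans h5 hTR
      have h8 : (0 : ℝ) ≤ (g + g') * p1 := by positivity
      have h9 := mul_le_mul_of_nonneg_left h7 h8
      calc ((g : ℝ) + g') * ((p1 : ℝ) * p2 * p3) = (g + g') * p1 * (p2 * p3) := by ring
        _ ≤ (g + g') * p1 * (g * g' * N0) := h9
        _ = N0 * (g * g' * (g + g')) * p1 := by ring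
    have h9 : (g + g' : ℝ) / (p1 + 1) < (g + g' : ℝ) / p1 :=
      div_lt_div_of_pos_left (by positivity) hp1 (by linarith)
    linarith
  have hD0 : 0 < (g' : ℝ) * Y1 - (g + g') * Y2 + g * Y3 := by
    rw [hD]
    have h5 : (g' : ℝ) * ρ1 < g' * (1 / (p1 + 1)) := mul_lt_mul_of_pos_left hρ1' (by linarith)
    have h6 : (g : ℝ) * ρ3 < g * (1 / (p3 + 1)) := mul_lt_mul_of_pos_left hρ3' (by linarith)
    have h7 : (1 : ℝ) / (p3 + 1) ≤ 1 / (p1 + 1) :=
      one_div_le_one_div_of_le (by linarith) (by linarith)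
    have h8 : (g : ℝ) * (1 / (p3 + 1)) ≤ g * (1 / (p1 + 1)) :=
      mul_le_mul_of_nonneg_left h7 (by linarith)
    have h9 : 0 < (g + g' : ℝ) * ρ2 := mul_pos (by linarith) hρ2
    have h10 : (g + g' : ℝ) / (p1 + 1) = g * (1 / (p1 + 1)) + g' * (1 / (p1 + 1)) := by ring
    have h11 : 0 ≤ 2 * (e : ℝ) * (V / P - V / Q) := by positivity
    rw [h10] at hlow
    linarith
  -- upper bound
  set s : ℝ := Real.sqrt n with hs
  have hs0 : 0 ≤ s := Real.sqrt_nonneg _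
  have hss : s ^ 2 = n := Real.sq_sqrt (by linarith)
  have hs1000 : 1000 ≤ s := by
    apply Real.le_sqrt_of_sq_le
    linarith
  have hps1 : s < p1 := lt_of_pow_lt_pow_left₀ 2 hp1.le (by rw [hss]; exact B1)
  have hps2 : s < p2 := lt_of_pow_lt_pow_left₀ 2 hp2.le (by rw [hss]; exact B2)
  have hps3 : s < p3 := lt_of_pow_lt_pow_left₀ 2 hp3.le (by rw [hss]; exact B3)
  have hG3 : ((g : ℝ) + g') ^ 3 ≤ s := by
    apply Real.le_sqrt_of_sq_le
    have q1 : (((g : ℝ) + g') ^ 3) ^ 2 = ((g : ℝ) + g') ^ 6 := by ring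
    rw [q1]
    exact hGR
  have hV4 : 4 * V ≤ s := by
    have q1 : 0 ≤ ((g : ℝ) + g') * ((g : ℝ) - g') ^ 2 :=
      mul_nonneg (by linarith) (sq_nonneg _)
    have q2 : ((g : ℝ) + g') ^ 3 - 4 * V = ((g : ℝ) + g') * ((g : ℝ) - g') ^ 2 := by
      rw [hVdef]
      ring
    linarith
  have hPs : s ^ 3 < P := by
    have h5 : s * s < p1 * p2 := mul_lt_mul'' hps1 hps2 hs0 hs0
    have h6 : s * s * s < p1 * p2 * p3 := mul_lt_mul'' h5 hps3 (by positivity) hs0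
    rw [hPdef]
    calc s ^ 3 = s * s * s := by ring
      _ < _ := h6
  have hQP : Q - P ≤ 7 * n := by
    rw [hPdef, hQdef]
    have t1 : (p1 : ℝ) * p2 ≤ p3 * p3 := mul_le_mul (by linarith) (by linarith) hp2.le hp3.le
    have t2 : (p1 : ℝ) * p3 ≤ p3 * p3 := mul_le_mul (by linarith) le_rfl hp3.le hp3.le
    have t3 : (p2 : ℝ) * p3 ≤ p3 * p3 := mul_le_mul (by linarith) le_rfl hp3.le hp3.le
    have t4 : ((p1 : ℝ) + 1) * (p2 + 1) * (p3 + 1) - p1 * p2 * p3 =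
      p1 * p2 + p1 * p3 + p2 * p3 + p1 + p2 + p3 + 1 := by ring
    have t5 : (p3 : ℝ) * (p3 + 1) = p3 * p3 + p3 := by ring
    rw [t4]
    linarith
  have hup1 : N0 * (V / P) ≤ 1 / 2 := by
    have h5 : N0 ≤ 2 * n := by rw [hN0]; linarith
    have h6 : V / P ≤ (s / 4) / s ^ 3 := by
      apply div_le_div₀ (by positivity) (by linarith) (by positivity) hPs.le
    have h7 : (s / 4) / s ^ 3 = 1 / (4 * s ^ 2) := by
      have : s ≠ 0 := by linarith
      field_simp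
    calc N0 * (V / P) ≤ (2 * n) * (1 / (4 * s ^ 2)) := by
          apply mul_le_mul h5 (h6.trans_eq h7) (by positivity) (by linarith)
      _ = 1 / 2 := by
          rw [hss]
          have : (n : ℝ) ≠ 0 := by linarith
          field_simp
          norm_num
  have hup2 : 2 * e * (V / P - V / Q) ≤ 1 / 200 := by
    have h5 : V / P - V / Q = V * (Q - P) / (P * Q) := by
      field_simp
    have h6 : V * (Q - P) / (P * Q) ≤ (s / 4) * (7 * n) / (s ^ 3 * s ^ 3) := by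
      apply div_le_div₀ (by positivity)
      · apply mul_le_mul (by linarith) hQP (by linarith) (by positivity)
      · positivity
      · apply mul_le_mul hPs.le (by linarith) (by positivity) hP0.le
    have h7 : (s / 4) * (7 * n) / (s ^ 3 * s ^ 3) = 7 / (4 * s ^ 3) := by
      rw [← hss]
      have : s ≠ 0 := by linarith
      field_simp
    rw [h5]
    calc 2 * e * (V * (Q - P) / (P * Q)) ≤ (2 * n) * (7 / (4 * s ^ 3)) := by
          apply mul_le_mul (by linarith) (h6.trans_eq h7)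
          · apply div_nonneg (mul_nonneg hV0.le (by linarith)) (by positivity)
          · linarith
      _ = 7 / (2 * s) := by
          rw [← hss]
          have : s ≠ 0 := by linarith
          field_simp
          norm_num
      _ ≤ 1 / 200 := by
          rw [div_le_div_iff₀ (by positivity) (by norm_num)]
          linarith
  have hup3 : (g + g' : ℝ) * ρ2 ≤ 1 / 10 := by
    have h5 : (g + g' : ℝ) * ρ2 ≤ (g + g') * (1 / (p2 + 1)) :=
      mul_le_mul_of_nonneg_left hρ2'.le (by linarith)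
    have h6 : (g + g' : ℝ) * (1 / (p2 + 1)) ≤ 1 / 10 := by
      rw [mul_one_div, div_le_div_iff₀ (by positivity) (by norm_num)]
      -- (g + g') * 10 ≤ 1 * (p2 + 1)
      have h7 : ((g : ℝ) + g') ^ 3 ≤ s := hG3
      by_contra hcon
      push Not at hcon
      have h8 : s < 10 * ((g : ℝ) + g') := by linarith
      have h9 : (100 : ℝ) < (g : ℝ) + g' := by linarith
      have h10 : 10 * ((g : ℝ) + g') ≤ ((g : ℝ) + g') ^ 3 := by
        have q1 : (100 : ℝ) ^ 2 ≤ ((g : ℝ) + g') ^ 2 :=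
          pow_le_pow_left₀ (by norm_num) h9.le 2
        have q2 : (10 : ℝ) ≤ ((g : ℝ) + g') ^ 2 := by linarith
        have q3 := mul_le_mul_of_nonneg_right q2 (by linarith : (0 : ℝ) ≤ (g : ℝ) + g')
        calc 10 * ((g : ℝ) + g') ≤ ((g : ℝ) + g') ^ 2 * ((g : ℝ) + g') := q3
          _ = ((g : ℝ) + g') ^ 3 := by ring
      linarith
    linarith
  have hD1 : (g' : ℝ) * Y1 - (g + g') * Y2 + g * Y3 < 1 := by
    rw [hD]
    have h5 : 0 < (g' : ℝ) * ρ1 := mul_pos (by linarith) hρ1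
    have h6 : 0 < (g : ℝ) * ρ3 := mul_pos (by linarith) hρ3
    linarith
  have hZ0 : (0 : ℤ) < (g' : ℤ) * Y1 - (g + g') * Y2 + g * Y3 := by exact_mod_cast hD0
  have hZ1 : (g' : ℤ) * Y1 - (g + g') * Y2 + g * Y3 < 1 := by exact_mod_cast hD1
  omega

end Pool.Agent.IR53
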