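import Mathlib
import Pool.Agent.LibIR53.Defs
import Pool.Agent.LibIR53.R18
import Pool.Agent.LibIR53.R19
import Pool.Agent.LibIR53.R20

/-!
# Row R23

Two cases.  (i) 2(n-e)+1 ≤ n/(50 log n): SC_card_small gives card ≤ sqrt n/(50 log n) + 2 ≤ sqrt n/(20 log n).
(ii) otherwise: k = ⌈sqrt(100 log n)⌉, G as in R22 (G^6 ≤ n, G ≥ n^(1/6)/2), m = 2k: a window (a,a+G] with ≥ 2k+1 elements of SC n e contains p1 + k ≤ p2, p2 + k ≤ p3 (exists_three), so
(p2-p1)(p3-p2)(2(n-e)+1) ≥ k^2 n/(50 log n) ≥ 2n: SC_window.  So card ≤ 2k (sqrt(2n)/G + 1) ≤ C n^(1/3) sqrt(log n) ≤ sqrt n/(20 log n).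
-/

namespace Pool.Agent.IR53

open Polynomial

private theorem r23_num : ∃ N : ℕ, ∀ n : ℕ, N ≤ n →
    10 ^ 6 ≤ n ∧ 1760 * Real.log n ^ 2 ≤ (n : ℝ) ^ (1 / 6 : ℝ) := by
  have h := (isLittleO_log_rpow_rpow_atTop 2 (by norm_num : (0 : ℝ) < 1 / 6)).bound
    (by norm_num : (0 : ℝ) < 1 / 1760)
  have h2 := tendsto_natCast_atTop_atTop.eventually h
  obtain ⟨N, hN⟩ := Filter.eventually_atTop.1 (h2.and (Filter.eventually_ge_atTop (10 ^ 6)))
  refine ⟨N, fun n hn => ⟨(hN n hn).2, ?_⟩⟩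
  have h3 := (hN n hn).1
  rw [Real.norm_of_nonneg (Real.rpow_nonneg (Nat.cast_nonneg n) _), Real.rpow_two,
    Real.norm_of_nonneg (sq_nonneg _)] at h3
  linarith

theorem SC_card_bound : ∃ N : ℕ, ∀ n : ℕ, N ≤ n → ∀ e, 0 < e → e < n →
    ((SC n e).card : ℝ) ≤ Real.sqrt n / (20 * Real.log n) := by
  obtain ⟨N, hN⟩ := r23_num
  refine ⟨N, fun n hn e he hen => ?_⟩
  obtain ⟨hn6, hnum⟩ := hN n hn
  set L : ℝ := Real.log n with hL
  set t : ℝ := (n : ℝ) ^ (1 / 6 : ℝ) with ht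
  have hnR : (10 : ℝ) ^ 6 ≤ n := by exact_mod_cast hn6
  have hn0 : (0 : ℝ) < n := by linarith
  have hL1 : 1 ≤ L := by
    rw [hL, Real.le_log_iff_exp_le hn0]
    have := Real.exp_one_lt_d9
    linarith
  have ht0 : 0 < t := Real.rpow_pos_of_pos hn0 _
  have ht6 : t ^ 6 = n := by
    rw [ht, ← Real.rpow_natCast, ← Real.rpow_mul hn0.le]
    norm_num
  have hLL : L ≤ L ^ 2 := by nlinarith
  have ht1 : 1760 ≤ t := by nlinarith
  have hs : Real.sqrt n = t ^ 3 := by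
    rw [← ht6, show t ^ 6 = (t ^ 3) ^ 2 by ring, Real.sqrt_sq (by positivity)]
  have hL0 : 0 < L := by linarith
  rcases le_or_gt (((2 * (n - e) + 1 : ℕ) : ℝ)) (n / (50 * L)) with hc | hc
  · -- few elements
    have h1 := SC_card_small hen
    have h2 : ((SC n e).card : ℝ) ≤
        ((2 * (n - e) + 1 : ℕ) : ℝ) / ((Nat.sqrt n + 1 : ℕ) : ℝ) + 2 := by
      have h3 : ((SC n e).card : ℝ) ≤ (((2 * (n - e) + 1) / (Nat.sqrt n + 1) + 2 : ℕ) : ℝ) := by
        exact_mod_cast h1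
      refine h3.trans ?_
      rw [Nat.cast_add, Nat.cast_ofNat]
      have h4 : (((2 * (n - e) + 1) / (Nat.sqrt n + 1) : ℕ) : ℝ) ≤
          ((2 * (n - e) + 1 : ℕ) : ℝ) / ((Nat.sqrt n + 1 : ℕ) : ℝ) := Nat.cast_div_le
      linarith
    have h5 : t ^ 3 ≤ ((Nat.sqrt n + 1 : ℕ) : ℝ) := by
      rw [← hs]
      push_cast
      exact Real.real_sqrt_lt_nat_sqrt_succ.le
    have h6 : ((2 * (n - e) + 1 : ℕ) : ℝ) / ((Nat.sqrt n + 1 : ℕ) : ℝ) ≤ t ^ 3 / (50 * L) := by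
      rw [div_le_div_iff₀ (by positivity) (by positivity)]
      have h7 : ((2 * (n - e) + 1 : ℕ) : ℝ) * (50 * L) ≤ n := by
        rwa [le_div_iff₀ (by positivity)] at hc
      calc ((2 * (n - e) + 1 : ℕ) : ℝ) * (50 * L) ≤ n := h7
        _ = t ^ 3 * t ^ 3 := by rw [← ht6]; ring
        _ ≤ t ^ 3 * ((Nat.sqrt n + 1 : ℕ) : ℝ) := mul_le_mul_of_nonneg_left h5 (by positivity)
    rw [hs]
    have h8 : t ^ 3 / (50 * L) + 2 ≤ t ^ 3 / (20 * L) := by
      have h9 : t ^ 3 / (20 * L) - t ^ 3 / (50 * L) = 3 * t ^ 3 / (100 * L) := by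
        field_simp
        norm_num
      have h10 : 2 ≤ 3 * t ^ 3 / (100 * L) := by
        rw [le_div_iff₀ (by positivity)]
        have h11 : t ≤ t ^ 3 := by nlinarith [sq_nonneg t, mul_pos ht0 ht0]
        nlinarith
      linarith
    linarith
  · -- windows
    set k : ℕ := ⌈10 * L⌉₊ with hk
    set G : ℕ := ⌊t⌋₊ with hG
    have hk0 : 0 < k := Nat.ceil_pos.2 (by positivity)
    have hkl : 10 * L ≤ k := Nat.le_ceil _
    have hku : (k : ℝ) ≤ 11 * L := by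
      have := Nat.ceil_lt_add_one (by positivity : 0 ≤ 10 * L)
      linarith
    have hGl : t / 2 ≤ G := by
      have := Nat.sub_one_lt_floor t
      linarith
    have hGu : (G : ℝ) ≤ t := Nat.floor_le ht0.le
    have hG0 : 0 < G := by
      have : (0 : ℝ) < G := by linarith
      exact_mod_cast this
    have hG6 : G ^ 6 ≤ n := by
      have : (G : ℝ) ^ 6 ≤ n := by
        rw [← ht6]
        exact pow_le_pow_left₀ (Nat.cast_nonneg G) hGu 6
      exact_mod_cast this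
    have hkT : 2 * n ≤ k * k * (2 * (n - e) + 1) := by
      have h1 : (n : ℝ) < ((2 * (n - e) + 1 : ℕ) : ℝ) * (50 * L) := by
        rwa [div_lt_iff₀ (by positivity)] at hc
      have h2 : 100 * L ≤ (k : ℝ) * k := by nlinarith
      have h3 : (2 : ℝ) * n ≤ (k : ℝ) * k * ((2 * (n - e) + 1 : ℕ) : ℝ) := by
        have h4 : (0 : ℝ) ≤ ((2 * (n - e) + 1 : ℕ) : ℝ) := Nat.cast_nonneg _
        have h5 := mul_le_mul_of_nonneg_right h2 h4
        linarith
      exact_mod_cast h3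
    have hw : ∀ a, ((SC n e).filter (fun s => a < s ∧ s ≤ a + G)).card ≤ 2 * k := by
      intro a
      by_contra hcon
      obtain ⟨p1, h1, p2, h2, p3, h3, h12, h23⟩ := exists_three hk0
        (by omega : 2 * k + 1 ≤ ((SC n e).filter (fun s => a < s ∧ s ≤ a + G)).card)
      rw [Finset.mem_filter] at h1 h2 h3
      refine SC_window he hen hn6 h1.1 h2.1 h3.1 (by omega) (by omega)
        ((Nat.pow_le_pow_left (by omega : p3 - p1 ≤ G) 6).trans hG6) (hkT.trans ?_)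
      exact Nat.mul_le_mul_right _ (Nat.mul_le_mul (by omega) (by omega))
    have hS : ∀ s ∈ SC n e, 0 < s ∧ s ≤ Nat.sqrt (2 * n) := by
      intro s hs
      have h1 : s ∈ GP n := (Finset.mem_filter.1 hs).1
      obtain ⟨-, hp, -, -, -, h2⟩ := Finset.mem_filter.1 h1
      refine ⟨hp.pos, Nat.le_sqrt.2 (le_trans (Nat.mul_le_mul_left s (Nat.le_succ s)) h2)⟩
    have h1 := card_le_of_window hG0 hS hw
    rw [Nat.sub_zero] at h1
    have h2 : ((SC n e).card : ℝ) ≤ 2 * k * (((Nat.sqrt (2 * n) : ℕ) : ℝ) / G + 1) := by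
      have h3 : ((SC n e).card : ℝ) ≤ ((2 * k * (Nat.sqrt (2 * n) / G + 1) : ℕ) : ℝ) := by
        exact_mod_cast h1
      refine h3.trans ?_
      push_cast
      have h4 : ((Nat.sqrt (2 * n) / G : ℕ) : ℝ) ≤ ((Nat.sqrt (2 * n) : ℕ) : ℝ) / (G : ℝ) :=
        Nat.cast_div_le
      exact mul_le_mul_of_nonneg_left (by linarith) (by positivity)
    have h5 : ((Nat.sqrt (2 * n) : ℕ) : ℝ) ≤ 3 / 2 * t ^ 3 := by
      have h6 : ((Nat.sqrt (2 * n) : ℕ) : ℝ) ^ 2 ≤ (3 / 2 * t ^ 3) ^ 2 := by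
        have h7 : ((Nat.sqrt (2 * n) : ℕ) : ℝ) ^ 2 ≤ 2 * n := by
          have := Nat.sqrt_le' (2 * n)
          exact_mod_cast this
        have h8 : (3 / 2 * t ^ 3) ^ 2 = 9 / 4 * n := by rw [← ht6]; ring
        rw [h8]
        linarith
      exact le_of_sq_le_sq h6 (by positivity)
    have h9 : ((Nat.sqrt (2 * n) : ℕ) : ℝ) / G ≤ 3 * t ^ 2 := by
      rw [div_le_iff₀ (by exact_mod_cast hG0)]
      calc ((Nat.sqrt (2 * n) : ℕ) : ℝ) ≤ 3 / 2 * t ^ 3 := h5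
        _ = 3 * t ^ 2 * (t / 2) := by ring
        _ ≤ 3 * t ^ 2 * G := mul_le_mul_of_nonneg_left hGl (by positivity)
    rw [hs]
    have h10 : (2 : ℝ) * k * (((Nat.sqrt (2 * n) : ℕ) : ℝ) / G + 1) ≤ 88 * L * t ^ 2 := by
      have h11 : ((Nat.sqrt (2 * n) : ℕ) : ℝ) / G + 1 ≤ 4 * t ^ 2 := by nlinarith
      calc (2 : ℝ) * k * (((Nat.sqrt (2 * n) : ℕ) : ℝ) / G + 1)
          ≤ 2 * (11 * L) * (4 * t ^ 2) := by
            apply mul_le_mul _ h11 (by positivity) (by positivity)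
            linarith
        _ = 88 * L * t ^ 2 := by ring
    refine h2.trans (h10.trans ?_)
    rw [le_div_iff₀ (by positivity)]
    calc 88 * L * t ^ 2 * (20 * L) = (1760 * L ^ 2) * t ^ 2 := by ring
      _ ≤ t * t ^ 2 := mul_le_mul_of_nonneg_right hnum (by positivity)
      _ = t ^ 3 := by ring

end Pool.Agent.IR53
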