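import Mathlib
import Pool.Agent.LibIR53.Defs
import Pool.Agent.LibIR53.R16
import Pool.Agent.LibIR53.R21
import Pool.Agent.LibIR53.R22
import Pool.Agent.LibIR53.R23

/-! # Assembly: `P_n` has no proper factor over the integers for large `n` -/

namespace Pool.Agent.IR53

open Polynomial

theorem main_int : ∃ N : ℕ, ∀ n : ℕ, N ≤ n → ∀ f g : ℤ[X], PZ n = f * g →
    f.natDegree = 0 ∨ g.natDegree = 0 := by
  obtain ⟨N1, h1⟩ := GP_card
  obtain ⟨N2, h2⟩ := SA_card_bound
  obtain ⟨N3, h3⟩ := SC_card_bound
  refine ⟨N1 + N2 + N3 + 3, fun n hn f g hfg => ?_⟩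
  by_contra hcon
  push Not at hcon
  obtain ⟨hf, hg⟩ := hcon
  have hf0 : f ≠ 0 := by
    rintro rfl
    exact hf natDegree_zero
  have hg0 : g ≠ 0 := by
    rintro rfl
    exact hg natDegree_zero
  have hdeg : f.natDegree + g.natDegree = n := by
    rw [← natDegree_mul hf0 hg0, ← hfg, PZ_natDegree]
  have hfn : f.natDegree < n := by omega
  have hgn : g.natDegree < n := by omega
  have hA1 := h2 n (by omega) f.natDegree (by omega) hfn
  have hA2 := h2 n (by omega) g.natDegree (by omega) hgn
  have hC1 := h3 n (by omega) f.natDegree (by omega) hfn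
  have hC2 := h3 n (by omega) g.natDegree (by omega) hgn
  have hG := h1 n (by omega)
  have hsub : GP n ⊆ ((SA n f.natDegree ∪ SA n g.natDegree) ∪ SC n f.natDegree) ∪
      SC n g.natDegree := by
    intro p hp
    simp only [Finset.mem_union]
    rcases deg_constraint hp hfg with h | h | h | h <;> tauto
  have hcard : ((GP n).card : ℝ) ≤ (SA n f.natDegree).card + (SA n g.natDegree).card +
      (SC n f.natDegree).card + (SC n g.natDegree).card := by
    have h5 := Finset.card_le_card hsub
    have h6 := Finset.card_union_le ((SA n f.natDegree ∪ SA n g.natDegree) ∪ SC n f.natDegree)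
      (SC n g.natDegree)
    have h7 := Finset.card_union_le (SA n f.natDegree ∪ SA n g.natDegree) (SC n f.natDegree)
    have h8 := Finset.card_union_le (SA n f.natDegree) (SA n g.natDegree)
    exact_mod_cast (by omega : (GP n).card ≤ (SA n f.natDegree).card + (SA n g.natDegree).card +
      (SC n f.natDegree).card + (SC n g.natDegree).card)
  have hlog : 0 < Real.log n := Real.log_pos (by exact_mod_cast (by omega : 1 < n))
  have hsq : 0 < Real.sqrt n := Real.sqrt_pos.2 (by exact_mod_cast (by omega : 0 < n))
  have hpos : 0 < Real.sqrt n / Real.log n := div_pos hsq hlog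
  have e1 : Real.sqrt n / (4 * Real.log n) = (1 / 4) * (Real.sqrt n / Real.log n) := by
    field_simp
  have e2 : Real.sqrt n / (40 * Real.log n) = (1 / 40) * (Real.sqrt n / Real.log n) := by
    field_simp
  have e3 : Real.sqrt n / (20 * Real.log n) = (1 / 20) * (Real.sqrt n / Real.log n) := by
    field_simp
  rw [e1] at hG
  rw [e2] at hA1 hA2
  rw [e3] at hC1 hC2
  linarith

end Pool.Agent.IR53
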