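import Mathlib
import Pool.Agent.LibIR53.Main

/-!
# Row R24

Gauss: `PZ n` is primitive (coefficient 0 is 1), `IsPrimitive.Int.irreducible_iff_irreducible_map_cast`; `(PZ n).map (Int.castRingHom ℚ)` is the rational
polynomial (`Nat.centralBinom_eq_two_mul_choose`).  Irreducible over ℤ: `PZ n = f*g` gives natDegree f = 0 or natDegree g = 0 (main_int), and a constant factor divides
the coefficient `1`, so it is a unit; `PZ n` is not a unit as its degree is `n ≥ 1`.
-/

namespace Pool.Agent.IR53

open Polynomial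

private theorem r24_prim (n : ℕ) : (PZ n).IsPrimitive := by
  intro r hr
  obtain ⟨q, hq⟩ := hr
  have h1 := PZ_coeff_zero n
  rw [hq, coeff_C_mul] at h1
  exact IsUnit.of_mul_eq_one _ h1

theorem main_rat : ∃ N : ℕ, ∀ n : ℕ, N ≤ n →
    Irreducible (∑ k ∈ Finset.range (n + 1), C ((Nat.choose (2 * k) k : ℚ) ^ 2) * X ^ k) := by
  obtain ⟨N, hN⟩ := main_int
  refine ⟨N + 1, fun n hn => ?_⟩
  have h1 : (PZ n).map (Int.castRingHom ℚ) =
      ∑ k ∈ Finset.range (n + 1), C ((Nat.choose (2 * k) k : ℚ) ^ 2) * X ^ k := by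
    unfold PZ
    rw [Polynomial.map_sum]
    refine Finset.sum_congr rfl fun k _ => ?_
    rw [Polynomial.map_mul, map_C, Polynomial.map_pow, map_X, Nat.centralBinom_eq_two_mul_choose]
    simp
  rw [← h1, ← IsPrimitive.Int.irreducible_iff_irreducible_map_cast (r24_prim n)]
  refine ⟨fun hu => ?_, fun f g hfg => ?_⟩
  · have h2 := natDegree_eq_zero_of_isUnit hu
    rw [PZ_natDegree] at h2
    omega
  · rcases hN n (by omega) f g hfg with h | h
    · left
      have h3 := eq_C_of_natDegree_eq_zero h
      have h4 : C (f.coeff 0) ∣ PZ n := by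
        rw [← h3, hfg]
        exact dvd_mul_right _ _
      rw [h3]
      exact isUnit_C.2 (r24_prim n _ h4)
    · right
      have h3 := eq_C_of_natDegree_eq_zero h
      have h4 : C (g.coeff 0) ∣ PZ n := by
        rw [← h3, hfg]
        exact dvd_mul_left _ _
      rw [h3]
      exact isUnit_C.2 (r24_prim n _ h4)

end Pool.Agent.IR53
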